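import Mathlib

/-!
# Poincaré–Miranda on the Hilbert cube

Combinatorial core: the cup product of the coboundaries of `0`-cochains `a_i` with values in `ZMod 2`
on the cubical grid (sum over monotone lattice paths inside a unit cube) is closed, and its total sum
over the grid is `1` when `a_i = 1` on `{z_i = 0}` and `a_i = 0` on `{z_i = k}`.  So some unit cube
has, for every `i`, vertices with `a_i = 1` and vertices with `a_i = 0`.  Compactness gives the rest.
-/

namespace Pool.Agent.Lib.MP_fe5ad6_lc.Miranda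

open Finset

section Comb

variable {ι : Type*} [DecidableEq ι]

/-- Unit vector. -/
def ev (j : ι) : ι → ℕ := Pi.single j 1

/-- Cup product of the coboundaries of the functions in the list, on the cube with lower vertex `z`
and directions `D` (sum over monotone paths). -/
def cup : List ((ι → ℕ) → ZMod 2) → Finset ι → (ι → ℕ) → ZMod 2
  | [], _, _ => 1
  | (a :: L), D, z => ∑ j ∈ D, (a (z + ev j) + a z) * cup L (D.erase j) (z + ev j)

theorem two_cancel (x : ZMod 2) : x + x = 0 := CharTwo.add_self_eq_zero x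

theorem sum_pairs_swap (D : Finset ι) (f : ι → ι → ZMod 2) :
    ∑ j ∈ D, ∑ i ∈ D.erase j, f j i = ∑ j ∈ D, ∑ i ∈ D.erase j, f i j := by
  apply Finset.sum_comm'
  intro x y
  simp only [Finset.mem_erase]
  constructor
  · rintro ⟨h1, h2, h3⟩; exact ⟨⟨fun h => h2 h.symm, h1⟩, h3⟩
  · rintro ⟨⟨h1, h2⟩, h3⟩; exact ⟨h2, fun h => h1 h.symm, h3⟩

theorem sum_pairs_symm (D : Finset ι) (f : ι → ι → ZMod 2)
    (hf : ∀ i j, f i j = f j i) : ∑ j ∈ D, ∑ i ∈ D.erase j, f j i = 0 := by
  rw [Finset.sum_sigma']
  apply Finset.sum_involution (fun p _ => ⟨p.2, p.1⟩)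
  · rintro ⟨j, i⟩ _
    show f j i + f i j = 0
    rw [hf j i]; exact two_cancel _
  · rintro ⟨j, i⟩ h _ heq
    simp only [Finset.mem_sigma, Finset.mem_erase] at h
    simp only [Sigma.mk.injEq] at heq
    exact h.2.1 heq.1
  · rintro ⟨j, i⟩ _
    rfl
  · rintro ⟨j, i⟩ h
    simp only [Finset.mem_sigma, Finset.mem_erase] at h ⊢
    exact ⟨h.2.2, fun e => h.2.1 e.symm, h.1⟩

theorem cup_closed (L : List ((ι → ℕ) → ZMod 2)) : ∀ (D : Finset ι) (z : ι → ℕ),
    ∑ j ∈ D, (cup L (D.erase j) (z + ev j) + cup L (D.erase j) z) = 0 := by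
  induction L with
  | nil =>
    intro D z
    apply Finset.sum_eq_zero
    intro j _
    exact two_cancel _
  | cons a L ih =>
    intro D z
    -- the four double sums
    have hA : ∑ j ∈ D, ∑ i ∈ D.erase j,
        a (z + ev j + ev i) * cup L ((D.erase j).erase i) (z + ev j + ev i) = 0 := by
      apply sum_pairs_symm D (fun j i => a (z + ev j + ev i) *
        cup L ((D.erase j).erase i) (z + ev j + ev i))
      intro i j
      simp only [Finset.erase_right_comm (a := i) (b := j), add_right_comm z (ev i) (ev j)]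
    have hBC : ∑ j ∈ D, ∑ i ∈ D.erase j,
        (a (z + ev j) * cup L ((D.erase j).erase i) (z + ev j + ev i)
          + a (z + ev i) * cup L ((D.erase j).erase i) (z + ev i)) = 0 := by
      simp only [Finset.sum_add_distrib]
      rw [sum_pairs_swap D (fun j i => a (z + ev i) * cup L ((D.erase j).erase i) (z + ev i))]
      rw [← Finset.sum_add_distrib]
      apply Finset.sum_eq_zero
      intro j _
      have h := ih (D.erase j) (z + ev j)
      rw [← Finset.sum_add_distrib]
      have h2 : ∀ i ∈ D.erase j, a (z + ev j) * cup L ((D.erase j).erase i) (z + ev j + ev i) +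
          a (z + ev j) * cup L ((D.erase i).erase j) (z + ev j) =
          a (z + ev j) * (cup L ((D.erase j).erase i) (z + ev j + ev i) +
            cup L ((D.erase j).erase i) (z + ev j)) := by
        intro i _
        rw [Finset.erase_right_comm (a := i) (b := j)]
        ring
      rw [Finset.sum_congr rfl h2, ← Finset.mul_sum, h, mul_zero]
    have hE : ∑ j ∈ D, ∑ i ∈ D.erase j, a z * cup L ((D.erase j).erase i) (z + ev i) = 0 := by
      have h1 : ∑ j ∈ D, ∑ i ∈ D.erase j, a z * cup L ((D.erase j).erase i) (z + ev i)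
          = a z * ∑ j ∈ D, ∑ i ∈ D.erase j, cup L ((D.erase j).erase i) (z + ev i) := by
        simp only [Finset.mul_sum]
      have h2 : ∑ j ∈ D, ∑ i ∈ D.erase j, cup L ((D.erase j).erase i) (z + ev i)
          = ∑ j ∈ D, ∑ i ∈ D.erase j, cup L ((D.erase j).erase i) z := by
        apply Finset.sum_congr rfl
        intro j _
        have h := ih (D.erase j) z
        rw [Finset.sum_add_distrib] at h
        exact CharTwo.add_eq_zero.mp h
      have h3 : ∑ j ∈ D, ∑ i ∈ D.erase j, cup L ((D.erase j).erase i) z = 0 := by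
        apply sum_pairs_symm D (fun j i => cup L ((D.erase j).erase i) z)
        intro i j
        simp only [Finset.erase_right_comm (a := i) (b := j)]
      rw [h1, h2, h3, mul_zero]
    have key : ∑ j ∈ D, (cup (a :: L) (D.erase j) (z + ev j) + cup (a :: L) (D.erase j) z)
        = (∑ j ∈ D, ∑ i ∈ D.erase j,
            a (z + ev j + ev i) * cup L ((D.erase j).erase i) (z + ev j + ev i))
          + (∑ j ∈ D, ∑ i ∈ D.erase j,
            (a (z + ev j) * cup L ((D.erase j).erase i) (z + ev j + ev i)
              + a (z + ev i) * cup L ((D.erase j).erase i) (z + ev i)))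
          + ∑ j ∈ D, ∑ i ∈ D.erase j, a z * cup L ((D.erase j).erase i) (z + ev i) := by
      rw [← Finset.sum_add_distrib, ← Finset.sum_add_distrib]
      apply Finset.sum_congr rfl
      intro j _
      rw [← Finset.sum_add_distrib, ← Finset.sum_add_distrib]
      simp only [cup]
      rw [← Finset.sum_add_distrib]
      apply Finset.sum_congr rfl
      intro i _
      ring
    rw [key, hA, hBC, hE]
    ring

theorem cup_cons_eq (a : (ι → ℕ) → ZMod 2) (L : List ((ι → ℕ) → ZMod 2)) (D : Finset ι)
    (z : ι → ℕ) : cup (a :: L) D z =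
      ∑ j ∈ D, (a (z + ev j) * cup L (D.erase j) (z + ev j) + a z * cup L (D.erase j) z) := by
  have h := cup_closed L D z
  have h2 : ∑ j ∈ D, (a z * (cup L (D.erase j) (z + ev j) + cup L (D.erase j) z)) = 0 := by
    rw [← Finset.mul_sum, h, mul_zero]
  rw [← add_zero (∑ j ∈ D, (a (z + ev j) * cup L (D.erase j) (z + ev j)
    + a z * cup L (D.erase j) z)), ← h2, ← Finset.sum_add_distrib]
  simp only [cup]
  apply Finset.sum_congr rfl
  intro j _
  have h3 := two_cancel (a z * cup L (D.erase j) z)
  linear_combination (-1 : ZMod 2) * h3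

theorem cup_vanish (j : ι) (c : ℕ) (b : (ι → ℕ) → ZMod 2)
    (hb : ∀ z z' : ι → ℕ, z j = c → z' j = c → b z = b z') :
    ∀ (L : List ((ι → ℕ) → ZMod 2)) (E : Finset ι) (z : ι → ℕ), b ∈ L → j ∉ E → z j = c →
      cup L E z = 0 := by
  intro L
  induction L with
  | nil => intro E z h; simp at h
  | cons a L ih =>
    intro E z hL hE hz
    simp only [cup]
    apply Finset.sum_eq_zero
    intro i hi
    have hij : i ≠ j := fun h => hE (h ▸ hi)
    have hz' : (z + ev i) j = c := by
      simp [ev, Ne.symm hij, hz]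
    rcases List.mem_cons.mp hL with h | h
    · subst h
      rw [hb (z + ev i) z hz' hz, two_cancel, zero_mul]
    · rw [ih (E.erase i) (z + ev i) h (fun hh => hE (Finset.mem_of_mem_erase hh)) hz', mul_zero]

theorem cup_extract (L : List ((ι → ℕ) → ZMod 2)) : ∀ (E : Finset ι) (z : ι → ℕ), cup L E z ≠ 0 →
    ∀ b ∈ L, ∃ u v : ι → ℕ, (∀ i, z i ≤ u i ∧ u i ≤ z i + 1) ∧ (∀ i, z i ≤ v i ∧ v i ≤ z i + 1) ∧
      b u ≠ b v := by
  suffices H : ∀ (E : Finset ι) (z : ι → ℕ), cup L E z ≠ 0 →
      ∀ b ∈ L, ∃ u v : ι → ℕ, (∀ i, z i ≤ u i ∧ u i ≤ z i + (if i ∈ E then 1 else 0)) ∧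
        (∀ i, z i ≤ v i ∧ v i ≤ z i + (if i ∈ E then 1 else 0)) ∧ b u ≠ b v by
    intro E z h b hb
    obtain ⟨u, v, hu, hv, huv⟩ := H E z h b hb
    refine ⟨u, v, fun i => ⟨(hu i).1, (hu i).2.trans ?_⟩, fun i => ⟨(hv i).1, (hv i).2.trans ?_⟩,
      huv⟩ <;> split_ifs <;> omega
  induction L with
  | nil => intro E z _ b hb; simp at hb
  | cons a L ih =>
    intro E z h b hb
    simp only [cup] at h
    obtain ⟨j, hj, hne⟩ := Finset.exists_ne_zero_of_sum_ne_zero h
    have h1 : a (z + ev j) + a z ≠ 0 := left_ne_zero_of_mul hne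
    have h2 : cup L (E.erase j) (z + ev j) ≠ 0 := right_ne_zero_of_mul hne
    rcases List.mem_cons.mp hb with hba | hbL
    · subst hba
      refine ⟨z + ev j, z, ?_, ?_, ?_⟩
      · intro i
        by_cases hij : i = j
        · subst hij; simp [ev, hj]
        · simp [ev, hij]
      · intro i; simp
      · intro h; apply h1; rw [h]; exact two_cancel _
    · obtain ⟨u, v, hu, hv, huv⟩ := ih (E.erase j) (z + ev j) h2 b hbL
      refine ⟨u, v, ?_, ?_, huv⟩
      · intro i
        have := hu i
        by_cases hij : i = j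
        · subst hij; simp [ev] at this; simp [hj]; omega
        · simp [ev, hij] at this; exact this
      · intro i
        have := hv i
        by_cases hij : i = j
        · subst hij; simp [ev] at this; simp [hj]; omega
        · simp [ev, hij] at this; exact this

variable [Fintype ι]

/-- The grid of lower vertices with directions `D`. -/
def box (k : ℕ) (D : Finset ι) : Finset (ι → ℕ) :=
  Fintype.piFinset (fun j => if j ∈ D then Finset.range k else {0})

theorem mem_box {k : ℕ} {D : Finset ι} {z : ι → ℕ} :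
    z ∈ box k D ↔ ∀ j, (j ∈ D → z j < k) ∧ (j ∉ D → z j = 0) := by
  unfold box
  rw [Fintype.mem_piFinset]
  apply forall_congr'
  intro j
  by_cases h : j ∈ D <;> simp [h]

theorem sum_box_split (k : ℕ) (D : Finset ι) (j : ι) (hj : j ∈ D) (f : (ι → ℕ) → ZMod 2) :
    ∑ z ∈ box k D, f z = ∑ z ∈ box k (D.erase j), ∑ t ∈ Finset.range k, f (Function.update z j t) := by
  rw [← Finset.sum_product']
  symm
  apply Finset.sum_nbij' (fun p => Function.update p.1 j p.2)
    (fun z => (Function.update z j 0, z j))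
  · rintro ⟨z, t⟩ h
    simp only [Finset.mem_product, Finset.mem_range] at h
    rw [mem_box] at h ⊢
    intro i
    by_cases hij : i = j
    · subst hij; simp [hj, h.2]
    · have := h.1 i
      simp only [Finset.mem_erase, ne_eq, hij, not_false_eq_true, true_and] at this
      simpa [Function.update_apply, hij] using this
  · intro z h
    simp only [Finset.mem_product, Finset.mem_range]
    rw [mem_box] at h ⊢
    refine ⟨fun i => ?_, (h j).1 hj⟩
    by_cases hij : i = j
    · subst hij; simp
    · have := h i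
      simpa [Function.update_apply, hij, Finset.mem_erase] using this
  · rintro ⟨z, t⟩ h
    simp only [Finset.mem_product, Finset.mem_range] at h
    have h0 : z j = 0 := ((mem_box.mp h.1) j).2 (by simp)
    simp only [Function.update_idem, Function.update_self, Prod.mk.injEq, and_true]
    rw [← h0, Function.update_eq_self]
  · intro z _
    simp
  · rintro ⟨z, t⟩ _
    rfl

omit [Fintype ι] in
theorem update_add_ev (z : ι → ℕ) (j : ι) (t : ℕ) :
    Function.update z j t + ev j = Function.update z j (t + 1) := by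
  ext i
  by_cases hij : i = j
  · subst hij; simp [ev]
  · simp [ev, hij]

theorem telescope (k : ℕ) (D : Finset ι) (j : ι) (hj : j ∈ D) (g : (ι → ℕ) → ZMod 2) :
    ∑ z ∈ box k D, (g (z + ev j) + g z) =
      ∑ z ∈ box k (D.erase j), (g (Function.update z j k) + g (Function.update z j 0)) := by
  rw [sum_box_split k D j hj]
  apply Finset.sum_congr rfl
  intro z _
  have : ∀ n, ∑ t ∈ Finset.range n, (g (Function.update z j t + ev j) + g (Function.update z j t)) =
      g (Function.update z j n) + g (Function.update z j 0) := by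
    intro n
    induction n with
    | zero => simp [two_cancel]
    | succ n ih =>
      rw [Finset.sum_range_succ, ih, update_add_ev]
      have h3 := two_cancel (g (Function.update z j n))
      linear_combination h3
  exact this k

theorem grid_sum (k : ℕ) (a : ι → (ι → ℕ) → ZMod 2) (h0 : ∀ i z, z i = 0 → a i z = 1)
    (h1 : ∀ i z, z i = k → a i z = 0) :
    ∀ l : List ι, l.Nodup → ∑ z ∈ box k l.toFinset, cup (l.map a) l.toFinset z = 1 := by
  intro l
  induction l with
  | nil =>
    intro _
    have : box k (([] : List ι).toFinset) = {0} := by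
      ext z
      rw [mem_box]
      simp [funext_iff]
    rw [this]
    simp [cup]
  | cons i l ih =>
    intro hnd
    have hil : i ∉ l := (List.nodup_cons.mp hnd).1
    have hl : l.Nodup := (List.nodup_cons.mp hnd).2
    set D := (i :: l).toFinset with hD
    have hDe : D.erase i = l.toFinset := by
      rw [hD, List.toFinset_cons, Finset.erase_insert]
      simpa using hil
    rw [List.map_cons]
    have hexp : ∀ z ∈ box k D, cup (a i :: l.map a) D z =
        ∑ j ∈ D, (a i (z + ev j) * cup (l.map a) (D.erase j) (z + ev j)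
          + a i z * cup (l.map a) (D.erase j) z) := fun z _ => cup_cons_eq _ _ _ _
    rw [Finset.sum_congr rfl hexp, Finset.sum_comm]
    have hiD : i ∈ D := by rw [hD]; simp
    rw [← Finset.add_sum_erase D _ hiD]
    have hrest : ∑ j ∈ D.erase i, ∑ z ∈ box k D,
        (a i (z + ev j) * cup (l.map a) (D.erase j) (z + ev j)
          + a i z * cup (l.map a) (D.erase j) z) = 0 := by
      apply Finset.sum_eq_zero
      intro j hj
      have hjD : j ∈ D := Finset.mem_of_mem_erase hj
      have hjl : j ∈ l := by rw [hDe] at hj; simpa using hj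
      rw [telescope k D j hjD (fun z => a i z * cup (l.map a) (D.erase j) z)]
      apply Finset.sum_eq_zero
      intro z _
      have e1 : cup (l.map a) (D.erase j) (Function.update z j k) = 0 :=
        cup_vanish j k (a j) (fun z z' hz hz' => by rw [h1 j z hz, h1 j z' hz'])
          (l.map a) (D.erase j) _ (List.mem_map_of_mem hjl) (by simp) (by simp)
      have e2 : cup (l.map a) (D.erase j) (Function.update z j 0) = 0 :=
        cup_vanish j 0 (a j) (fun z z' hz hz' => by rw [h0 j z hz, h0 j z' hz'])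
          (l.map a) (D.erase j) _ (List.mem_map_of_mem hjl) (by simp) (by simp)
      simp only [e1, e2, mul_zero, add_zero]
    rw [hrest, add_zero, telescope k D i hiD (fun z => a i z * cup (l.map a) (D.erase i) z), hDe]
    rw [← ih hl]
    apply Finset.sum_congr rfl
    intro z hz
    have hzi : z i = 0 := ((mem_box.mp hz) i).2 (by simpa using hil)
    have hu : Function.update z i 0 = z := by
      rw [← hzi, Function.update_eq_self]
    simp only [hu]
    rw [h1 i (Function.update z i k) (by simp), h0 i z hzi]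
    ring

/-- Combinatorial Poincaré–Miranda: some unit cube of the grid `[0,k]^ι` has, for every `i`, a vertex
where `a i = 1` and a vertex where `a i = 0`. -/
theorem grid_miranda (k : ℕ) (a : ι → (ι → ℕ) → ZMod 2) (h0 : ∀ i z, z i = 0 → a i z = 1)
    (h1 : ∀ i z, z i = k → a i z = 0) :
    ∃ z : ι → ℕ, (∀ i, z i < k) ∧ ∀ i, ∃ u v : ι → ℕ, (∀ j, z j ≤ u j ∧ u j ≤ z j + 1) ∧
      (∀ j, z j ≤ v j ∧ v j ≤ z j + 1) ∧ a i u = 1 ∧ a i v = 0 := by
  have h := grid_sum k a h0 h1 (Finset.univ : Finset ι).toList (Finset.nodup_toList _)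
  rw [Finset.toList_toFinset] at h
  have hne : ∑ z ∈ box k Finset.univ, cup ((Finset.univ : Finset ι).toList.map a) Finset.univ z
      ≠ 0 := by
    rw [h]; exact one_ne_zero
  obtain ⟨z, hz, hzne⟩ := Finset.exists_ne_zero_of_sum_ne_zero hne
  refine ⟨z, fun i => ((mem_box.mp hz) i).1 (Finset.mem_univ i), fun i => ?_⟩
  obtain ⟨u, v, hu, hv, huv⟩ := cup_extract _ _ _ hzne (a i)
    (List.mem_map_of_mem (Finset.mem_toList.mpr (Finset.mem_univ i)))
  have key : ∀ x : ZMod 2, x = 0 ∨ x = 1 := by decide
  rcases key (a i u) with e | e <;> rcases key (a i v) with e' | e'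
  · exact absurd (e.trans e'.symm) huv
  · exact ⟨v, u, hv, hu, e', e⟩
  · exact ⟨u, v, hu, hv, e, e'⟩
  · exact absurd (e.trans e'.symm) huv

end Comb

open Filter Topology

/-- The point of the Hilbert cube with coordinates `z_j / N` for `j < N`, and `0` afterwards. -/
noncomputable def pt (N : ℕ) (z : Fin N → ℕ) : ℕ → unitInterval := fun j =>
  if h : j < N then Set.projIcc (0 : ℝ) 1 zero_le_one ((z ⟨j, h⟩ : ℝ) / N) else 0

theorem pt_dist (N : ℕ) (hN : 0 < N) (z u : Fin N → ℕ) (hu : ∀ j, z j ≤ u j ∧ u j ≤ z j + 1)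
    (j : ℕ) : dist (pt N u j) (pt N z j) ≤ 1 / (N : ℝ) := by
  have hN' : (0 : ℝ) < N := by exact_mod_cast hN
  unfold pt
  by_cases h : j < N
  · simp only [h, dif_pos]
    rw [Subtype.dist_eq, Real.dist_eq]
    refine (Set.abs_projIcc_sub_projIcc (zero_le_one' ℝ)).trans ?_
    rw [← sub_div, abs_div, abs_of_pos hN']
    gcongr
    have h1 := (hu ⟨j, h⟩).1
    have h2 := (hu ⟨j, h⟩).2
    have h1' : (z ⟨j, h⟩ : ℝ) ≤ u ⟨j, h⟩ := by exact_mod_cast h1
    have h2' : (u ⟨j, h⟩ : ℝ) ≤ z ⟨j, h⟩ + 1 := by exact_mod_cast h2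
    rw [abs_le]
    constructor <;> linarith
  · simp only [h, dif_neg, not_false_eq_true, dist_self]
    positivity

/-- Infinite-dimensional Poincaré–Miranda theorem on the Hilbert cube. -/
theorem cube_miranda (F : ℕ → (ℕ → unitInterval) → ℝ) (hF : ∀ n, Continuous (F n))
    (h0 : ∀ n x, (x n : ℝ) = 0 → 0 ≤ F n x) (h1 : ∀ n x, (x n : ℝ) = 1 → F n x ≤ 0) :
    ∃ x, ∀ n, F n x = 0 := by
  classical
  -- the discrete step
  have step : ∀ n : ℕ, ∃ z : Fin (n + 1) → ℕ, ∀ i : Fin (n + 1), ∃ u v : Fin (n + 1) → ℕ,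
      (∀ j, z j ≤ u j ∧ u j ≤ z j + 1) ∧ (∀ j, z j ≤ v j ∧ v j ≤ z j + 1) ∧
      0 ≤ F i (pt (n + 1) u) ∧ F i (pt (n + 1) v) ≤ 0 := by
    intro n
    let a : Fin (n + 1) → (Fin (n + 1) → ℕ) → ZMod 2 := fun i z =>
      if z i = 0 ∨ 0 < F i (pt (n + 1) z) then 1 else 0
    have hz0 : ∀ (i : Fin (n + 1)) (z : Fin (n + 1) → ℕ), z i = 0 → 0 ≤ F i (pt (n + 1) z) := by
      intro i z hz
      apply h0
      unfold pt
      have : (i : ℕ) < n + 1 := i.2
      simp [hz]
    obtain ⟨z, _, hz⟩ := grid_miranda (n + 1) a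
      (by intro i z hz; simp only [a]; rw [if_pos (Or.inl hz)])
      (by
        intro i z hz
        simp only [a]
        rw [if_neg]
        push Not
        refine ⟨by omega, ?_⟩
        apply h1
        unfold pt
        have h3 : (i : ℕ) < n + 1 := i.2
        simp only [h3, dif_pos, Fin.eta, hz]
        rw [div_self (by positivity)]
        simp [Set.projIcc])
    refine ⟨z, fun i => ?_⟩
    obtain ⟨u, v, hu, hv, hau, hav⟩ := hz i
    refine ⟨u, v, hu, hv, ?_, ?_⟩
    · by_contra hlt
      have : ¬ (u i = 0 ∨ 0 < F i (pt (n + 1) u)) := by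
        rintro (h | h)
        · exact hlt (hz0 i u h)
        · exact hlt h.le
      simp only [a, if_neg this] at hau
      exact zero_ne_one hau
    · by_contra hlt
      push Not at hlt
      simp only [a, if_pos (Or.inr hlt : v i = 0 ∨ 0 < F i (pt (n + 1) v))] at hav
      exact one_ne_zero hav
  choose z hz using step
  choose u v hu hv hFu hFv using hz
  obtain ⟨p, φ, hφ, hp⟩ := CompactSpace.tendsto_subseq (fun n => pt (n + 1) (z n))
  refine ⟨p, fun i => ?_⟩
  have lim : ∀ (w : ∀ n, Fin (n + 1) → Fin (n + 1) → ℕ),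
      (∀ n i j, z n j ≤ w n i j ∧ w n i j ≤ z n j + 1) →
      Tendsto (fun n => F i (if h : i < φ n + 1 then pt (φ n + 1) (w (φ n) ⟨i, h⟩)
        else pt (φ n + 1) (z (φ n)))) atTop (𝓝 (F i p)) := by
    intro w hw
    refine ((hF i).tendsto p).comp ?_
    rw [tendsto_pi_nhds]
    intro j
    have hpj : Tendsto (fun n => pt (φ n + 1) (z (φ n)) j) atTop (𝓝 (p j)) :=
      (tendsto_pi_nhds.mp hp) j
    refine (tendsto_iff_of_dist ?_).mpr hpj
    have hto : Tendsto (fun n => 1 / ((φ n : ℝ) + 1)) atTop (𝓝 0) :=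
      (tendsto_one_div_add_atTop_nhds_zero_nat (𝕜 := ℝ)).comp hφ.tendsto_atTop
    refine squeeze_zero (fun _ => dist_nonneg) (fun n => ?_) hto
    by_cases h : i < φ n + 1
    · simp only [h, dif_pos]
      have := pt_dist (φ n + 1) (Nat.succ_pos _) (z (φ n)) (w (φ n) ⟨i, h⟩) (hw (φ n) ⟨i, h⟩) j
      simpa using this
    · simp only [h, dif_neg, not_false_eq_true, dist_self]
      positivity
  have hev : ∀ᶠ n in atTop, i < φ n + 1 := by
    filter_upwards [eventually_ge_atTop i] with n hn
    have := hφ.id_le n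
    simp only [id] at this
    omega
  apply le_antisymm
  · refine le_of_tendsto (lim v (fun n i j => hv n i j)) ?_
    filter_upwards [hev] with n hn
    simp only [hn, dif_pos]
    exact hFv (φ n) ⟨i, hn⟩
  · refine ge_of_tendsto (lim u (fun n i j => hu n i j)) ?_
    filter_upwards [hev] with n hn
    simp only [hn, dif_pos]
    exact hFu (φ n) ⟨i, hn⟩

end Pool.Agent.Lib.MP_fe5ad6_lc.Miranda
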