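import Pool.Agent.Lib.MP_fe5ad6_lc.Defs

open Set Topology

namespace Pool.Agent.Lib.MP_fe5ad6_lc

/-! ### General topology -/

theorem exists_disjoint_open_ext {X Y : Type*} [TopologicalSpace X] [T5Space X]
    [TopologicalSpace Y] {f : Y → X} (hf : IsInducing f) {U V : Set Y} (hU : IsOpen U)
    (hV : IsOpen V) (hd : Disjoint U V) (S T : Set X) (hS : IsClosed S) (hT : IsClosed T)
    (hST : Disjoint S T) (hSU : f ⁻¹' S ⊆ U) (hTV : f ⁻¹' T ⊆ V) (hc : IsClosed (Set.range f)) :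
    ∃ U' V' : Set X, IsOpen U' ∧ IsOpen V' ∧ Disjoint U' V' ∧ U ⊆ f ⁻¹' U' ∧ V ⊆ f ⁻¹' V' ∧
      S ⊆ U' ∧ T ⊆ V' := by
  obtain ⟨G, hG, rfl⟩ := hf.isOpen_iff.1 hU
  obtain ⟨H, hH, rfl⟩ := hf.isOpen_iff.1 hV
  have h1 : Disjoint (closure (S ∪ f '' (f ⁻¹' G))) (T ∪ f '' (f ⁻¹' H)) := by
    rw [Set.disjoint_left]
    intro x hx hx'
    rw [closure_union, hS.closure_eq] at hx
    have hcl : closure (f '' (f ⁻¹' G)) ⊆ Set.range f :=
      closure_minimal (by rintro _ ⟨y, _, rfl⟩; exact ⟨y, rfl⟩) hc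
    have hGH : ∀ x, x ∈ closure (f '' (f ⁻¹' G)) → x ∉ H := by
      intro x hx hxH
      obtain ⟨_, hz, ⟨y, hy, rfl⟩⟩ := mem_closure_iff.1 hx H hH hxH
      exact Set.disjoint_left.1 hd hy hz
    rcases hx with hx | hx
    · rcases hx' with hx' | ⟨y, hy, rfl⟩
      · exact Set.disjoint_left.1 hST hx hx'
      · exact Set.disjoint_left.1 hd (hSU hx) hy
    · rcases hx' with hx' | ⟨y, hy, rfl⟩
      · obtain ⟨y, rfl⟩ := hcl hx
        exact hGH _ hx (hTV hx')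
      · exact hGH _ hx hy
  have h2 : Disjoint (S ∪ f '' (f ⁻¹' G)) (closure (T ∪ f '' (f ⁻¹' H))) := by
    rw [Set.disjoint_left]
    intro x hx' hx
    rw [closure_union, hT.closure_eq] at hx
    have hcl : closure (f '' (f ⁻¹' H)) ⊆ Set.range f :=
      closure_minimal (by rintro _ ⟨y, _, rfl⟩; exact ⟨y, rfl⟩) hc
    have hGH : ∀ x, x ∈ closure (f '' (f ⁻¹' H)) → x ∉ G := by
      intro x hx hxH
      obtain ⟨_, hz, ⟨y, hy, rfl⟩⟩ := mem_closure_iff.1 hx G hG hxH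
      exact Set.disjoint_left.1 hd hz hy
    rcases hx with hx | hx
    · rcases hx' with hx' | ⟨y, hy, rfl⟩
      · exact Set.disjoint_left.1 hST hx' hx
      · exact Set.disjoint_left.1 hd hy (hTV hx)
    · rcases hx' with hx' | ⟨y, hy, rfl⟩
      · obtain ⟨y, rfl⟩ := hcl hx
        exact hGH _ hx (hSU hx')
      · exact hGH _ hx hy
  obtain ⟨U', V', hU', hV', h3, h4, h5⟩ := separatedNhds_iff_disjoint.2
    (CompletelyNormalSpace.completely_normal h1 h2)
  refine ⟨U', V', hU', hV', h5, ?_, ?_, ?_, ?_⟩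
  · intro y hy; exact h3 (Or.inr ⟨y, hy, rfl⟩)
  · intro y hy; exact h4 (Or.inr ⟨y, hy, rfl⟩)
  · exact fun x hx => h3 (Or.inl hx)
  · exact fun x hx => h4 (Or.inl hx)

theorem exists_disjoint_open_ext' {X Y : Type*} [TopologicalSpace X] [T5Space X]
    [TopologicalSpace Y] {f : Y → X} (hf : IsInducing f) {U V : Set Y} (hU : IsOpen U)
    (hV : IsOpen V) (hd : Disjoint U V) :
    ∃ U' V' : Set X, IsOpen U' ∧ IsOpen V' ∧ Disjoint U' V' ∧ U ⊆ f ⁻¹' U' ∧ V ⊆ f ⁻¹' V' := by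
  obtain ⟨G, hG, rfl⟩ := hf.isOpen_iff.1 hU
  obtain ⟨H, hH, rfl⟩ := hf.isOpen_iff.1 hV
  have h1 : Disjoint (closure (f '' (f ⁻¹' G))) (f '' (f ⁻¹' H)) := by
    rw [Set.disjoint_left]
    rintro x hx ⟨y, hy, rfl⟩
    obtain ⟨_, hz, ⟨y', hy', rfl⟩⟩ := mem_closure_iff.1 hx H hH hy
    exact Set.disjoint_left.1 hd hy' hz
  have h2 : Disjoint (f '' (f ⁻¹' G)) (closure (f '' (f ⁻¹' H))) := by
    rw [Set.disjoint_right]
    rintro x hx ⟨y, hy, rfl⟩
    obtain ⟨_, hz, ⟨y', hy', rfl⟩⟩ := mem_closure_iff.1 hx G hG hy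
    exact Set.disjoint_left.1 hd hz hy'
  obtain ⟨U', V', hU', hV', h3, h4, h5⟩ := separatedNhds_iff_disjoint.2
    (CompletelyNormalSpace.completely_normal h1 h2)
  exact ⟨U', V', hU', hV', h5, fun y hy => h3 ⟨y, hy, rfl⟩, fun y hy => h4 ⟨y, hy, rfl⟩⟩

theorem exists_sign_fun {X : Type*} [TopologicalSpace X] [TopologicalSpace.MetrizableSpace X]
    {U V : Set X} (hU : IsOpen U) (hV : IsOpen V) (hd : Disjoint U V) (hUn : U.Nonempty)
    (hVn : V.Nonempty) :
    ∃ F : X → ℝ, Continuous F ∧ (∀ x ∈ U, 0 < F x) ∧ (∀ x ∈ V, F x < 0) := by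
  letI := TopologicalSpace.metrizableSpaceMetric X
  have hUc : (Uᶜ : Set X).Nonempty := by
    obtain ⟨v, hv⟩ := hVn
    exact ⟨v, fun h => Set.disjoint_left.1 hd h hv⟩
  have hVc : (Vᶜ : Set X).Nonempty := by
    obtain ⟨v, hv⟩ := hUn
    exact ⟨v, fun h => Set.disjoint_left.1 hd hv h⟩
  refine ⟨fun x => Metric.infDist x Uᶜ - Metric.infDist x Vᶜ,
    (Metric.continuous_infDist_pt _).sub (Metric.continuous_infDist_pt _), ?_, ?_⟩
  · intro x hx
    have h1 : 0 < Metric.infDist x Uᶜ :=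
      (hU.isClosed_compl.notMem_iff_infDist_pos hUc).1 (fun h => h hx)
    have h2 : Metric.infDist x Vᶜ = 0 :=
      Metric.infDist_zero_of_mem (fun h => Set.disjoint_left.1 hd hx h)
    simp only [h2]; linarith
  · intro x hx
    have h1 : 0 < Metric.infDist x Vᶜ :=
      (hV.isClosed_compl.notMem_iff_infDist_pos hVc).1 (fun h => h hx)
    have h2 : Metric.infDist x Uᶜ = 0 :=
      Metric.infDist_zero_of_mem (fun h => Set.disjoint_left.1 hd h hx)
    simp only [h2]; linarith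

theorem continuous_coord (i : ℕ) : Continuous (fun x : Cube => (x i : ℝ)) :=
  continuous_subtype_val.comp (continuous_apply i)

theorem isOpen_cell (w : List ℕ) : IsOpen (cell w) := by
  have : cell w = ⋂ j : Fin w.length, {x : Cube | (w[j] : ℝ) - 1 < 4 ^ w.length * (x j : ℝ) ∧
      4 ^ w.length * (x j : ℝ) < (w[j] : ℝ) + 1} := by
    ext x
    simp only [cell, mem_setOf_eq, mem_iInter]
    constructor
    · intro h j; exact h j.1 j.2
    · intro h j hj; exact h ⟨j, hj⟩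
  rw [this]
  refine isOpen_iInter_of_finite fun j => ?_
  have hc := continuous_coord j
  exact (isOpen_lt continuous_const (continuous_const.mul hc)).inter
    (isOpen_lt (continuous_const.mul hc) continuous_const)

theorem isOpen_D (e : ℕ) : IsOpen (D e) := isOpen_cell _

end Pool.Agent.Lib.MP_fe5ad6_lc
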