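import Pool.Agent.Lib.MP_fe5ad6_lc.Base

open Set Topology

namespace Pool.Agent.Lib.MP_fe5ad6_lc

example : T5Space Cube := inferInstance

theorem exists_D {O : Set Cube} (hO : IsOpen O) {x : Cube} (hx : x ∈ O) :
    ∃ e, x ∈ D e ∧ D e ⊆ O := by
  obtain ⟨I, u, hu, hsub⟩ := isOpen_pi_iff.1 hO x hx
  have h1 : ∃ δ > 0, ∀ i ∈ I, ∀ z : unitInterval, |(z : ℝ) - x i| < δ → z ∈ u i := by
    classical
    clear hsub
    induction I using Finset.induction_on with
    | empty => exact ⟨1, one_pos, by simp⟩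
    | insert a s ha ih =>
      obtain ⟨δ, hδ, h⟩ := ih (fun i hi => hu i (Finset.mem_insert_of_mem hi))
      obtain ⟨ε, hε, hb⟩ := Metric.isOpen_iff.1 (hu a (Finset.mem_insert_self a s)).1 (x a)
        (hu a (Finset.mem_insert_self a s)).2
      refine ⟨min δ ε, lt_min hδ hε, ?_⟩
      intro i hi z hz
      rcases Finset.mem_insert.1 hi with rfl | hi
      · apply hb
        rw [Metric.mem_ball, Subtype.dist_eq, Real.dist_eq]
        exact lt_of_lt_of_le hz (min_le_right _ _)
      · exact h i hi z (lt_of_lt_of_le hz (min_le_left _ _))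
  obtain ⟨δ, hδ, hb⟩ := h1
  obtain ⟨n0, hn0⟩ := exists_pow_lt_of_lt_one (show (0 : ℝ) < δ / 2 by linarith)
    (show (1 / 4 : ℝ) < 1 by norm_num)
  obtain ⟨n1, hn1⟩ : ∃ n1, ∀ i ∈ I, i < n1 := by
    refine ⟨I.sup id + 1, fun i hi => Nat.lt_succ_of_le ?_⟩
    exact Finset.le_sup (f := id) hi
  set n := max n0 n1 with hn
  have hpow : (0 : ℝ) < 4 ^ n := by positivity
  have hn2 : 2 / (4 : ℝ) ^ n < δ := by
    have h2 : (1 / 4 : ℝ) ^ n ≤ (1 / 4) ^ n0 :=
      pow_le_pow_of_le_one (by norm_num) (by norm_num) (le_max_left _ _)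
    have h3 : 2 / (4 : ℝ) ^ n = 2 * (1 / 4) ^ n := by
      rw [div_pow, one_pow]; ring
    rw [h3]; linarith
  set w : List ℕ := List.ofFn (fun j : Fin n => ⌊(4 : ℝ) ^ n * x j⌋₊) with hw
  have hlen : w.length = n := by simp [hw]
  have hget : ∀ (j : ℕ) (h : j < w.length), w[j] = ⌊(4 : ℝ) ^ n * x j⌋₊ := by
    intro j h; simp [hw]
  refine ⟨Encodable.encode w, ?_, ?_⟩
  · rw [D, Denumerable.ofNat_encode]
    intro j h
    rw [hget j h, hlen]
    have h0 : (0 : ℝ) ≤ 4 ^ n * x j := mul_nonneg hpow.le (x j).2.1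
    constructor
    · have := Nat.floor_le h0; linarith
    · exact Nat.lt_floor_add_one _
  · rw [D, Denumerable.ofNat_encode]
    intro y hy
    apply hsub
    intro i hi
    have hin : i < n := lt_of_lt_of_le (hn1 i hi) (le_max_right _ _)
    have h := hy i (by rw [hlen]; exact hin)
    rw [hget i, hlen] at h
    apply hb i hi
    have h0 : (0 : ℝ) ≤ 4 ^ n * x i := mul_nonneg hpow.le (x i).2.1
    have h2 := Nat.floor_le h0
    have h3 := Nat.lt_floor_add_one ((4 : ℝ) ^ n * x i)
    refine lt_trans ?_ hn2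
    rw [lt_div_iff₀ hpow, abs_sub_comm]
    have : |(x i : ℝ) - y i| * 4 ^ n = |4 ^ n * (x i : ℝ) - 4 ^ n * y i| := by
      rw [← mul_sub, abs_mul, abs_of_pos hpow]; ring
    rw [this, abs_lt]
    constructor <;> linarith [h.1, h.2]

/-- Nonempty disjoint cells are syntactically disjoint. -/
theorem disj_of_disjoint {e e' : ℕ} (h : (D e).Nonempty) (h' : (D e').Nonempty)
    (hd : Disjoint (D e) (D e')) : disj e e' := by
  rw [disj]
  rw [D] at h hd
  rw [D] at h' hd
  generalize Denumerable.ofNat (List ℕ) e = w at h hd ⊢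
  generalize Denumerable.ofNat (List ℕ) e' = w' at h' hd ⊢
  by_contra hcon
  simp only [disjW, not_exists, not_and, not_or] at hcon
  obtain ⟨x, hx⟩ := h
  obtain ⟨x', hx'⟩ := h'
  have hp : (0 : ℝ) < 4 ^ w.length := by positivity
  have hp' : (0 : ℝ) < 4 ^ w'.length := by positivity
  -- the interval of coordinate j
  have key : ∀ j : ℕ, ∃ y : unitInterval,
      (∀ h : j < w.length, (w[j] : ℝ) - 1 < 4 ^ w.length * (y : ℝ) ∧
        4 ^ w.length * (y : ℝ) < (w[j] : ℝ) + 1) ∧
      (∀ h : j < w'.length, (w'[j] : ℝ) - 1 < 4 ^ w'.length * (y : ℝ) ∧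
        4 ^ w'.length * (y : ℝ) < (w'[j] : ℝ) + 1) := by
    intro j
    by_cases hj : j < w.length
    · by_cases hj' : j < w'.length
      · obtain ⟨hl, hr⟩ := hcon j hj
        simp only [left, hj, hj', true_and, not_le] at hl hr
        rw [List.getD_eq_getElem _ _ hj, List.getD_eq_getElem _ _ hj'] at hl hr
        have hl' : (w'[j] : ℝ) * 4 ^ w.length < (w[j] + 1) * 4 ^ w'.length + 4 ^ w.length := by
          exact_mod_cast hl
        have hr' : (w[j] : ℝ) * 4 ^ w'.length < (w'[j] + 1) * 4 ^ w.length + 4 ^ w'.length := by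
          exact_mod_cast hr
        have hx1 := hx j hj
        have hx2 := hx' j hj'
        have hxb := (x j).2
        have hxb' := (x' j).2
        set a := ((w[j] : ℝ) - 1) / 4 ^ w.length with ha
        set b := ((w[j] : ℝ) + 1) / 4 ^ w.length with hb
        set a' := ((w'[j] : ℝ) - 1) / 4 ^ w'.length with ha'
        set b' := ((w'[j] : ℝ) + 1) / 4 ^ w'.length with hb'
        have e1 : a < x j := by rw [ha, div_lt_iff₀ hp]; linarith [hx1.1]
        have e2 : x j < b := by rw [hb, lt_div_iff₀ hp]; linarith [hx1.2]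
        have e3 : a' < x' j := by rw [ha', div_lt_iff₀ hp']; linarith [hx2.1]
        have e4 : x' j < b' := by rw [hb', lt_div_iff₀ hp']; linarith [hx2.2]
        have e5 : a' < b := by
          rw [ha', hb, div_lt_div_iff₀ hp' hp]; linarith
        have e6 : a < b' := by
          rw [ha, hb', div_lt_div_iff₀ hp hp']; linarith
        have e7 : a < 1 := lt_of_lt_of_le e1 hxb.2
        have e8 : a' < 1 := lt_of_lt_of_le e3 hxb'.2
        have e9 : 0 < b := lt_of_le_of_lt hxb.1 e2
        have e10 : 0 < b' := lt_of_le_of_lt hxb'.1 e4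
        have e11 : a < b := e1.trans e2
        have e12 : a' < b' := e3.trans e4
        set m := max (max a a') 0 with hm
        set M := min (min b b') 1 with hM
        have hmM : m < M := by
          rw [hm, hM]
          exact max_lt (max_lt (lt_min (lt_min e11 e6) e7) (lt_min (lt_min e5 e12) e8))
            (lt_min (lt_min e9 e10) one_pos)
        have hm0 : 0 ≤ m := le_max_right _ _
        have hM1 : M ≤ 1 := min_le_right _ _
        refine ⟨⟨(m + M) / 2, by constructor <;> linarith⟩, fun _ => ?_, fun _ => ?_⟩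
        · have f1 : a < (m + M) / 2 := by
            have : a ≤ m := (le_max_left a a').trans (le_max_left _ _)
            linarith
          have f2 : (m + M) / 2 < b := by
            have : M ≤ b := (min_le_left _ _).trans (min_le_left b b')
            linarith
          rw [ha, div_lt_iff₀ hp] at f1
          rw [hb, lt_div_iff₀ hp] at f2
          constructor
          · simpa [mul_comm] using f1
          · simpa [mul_comm] using f2
        · have f1 : a' < (m + M) / 2 := by
            have : a' ≤ m := (le_max_right a a').trans (le_max_left _ _)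
            linarith
          have f2 : (m + M) / 2 < b' := by
            have : M ≤ b' := (min_le_left _ _).trans (min_le_right b b')
            linarith
          rw [ha', div_lt_iff₀ hp'] at f1
          rw [hb', lt_div_iff₀ hp'] at f2
          constructor
          · simpa [mul_comm] using f1
          · simpa [mul_comm] using f2
      · exact ⟨x j, fun h => hx j h, fun h => absurd h hj'⟩
    · exact ⟨x' j, fun h => absurd h hj, fun h => hx' j h⟩
  choose y hy using key
  exact Set.disjoint_left.1 hd (show y ∈ cell w from fun j h => (hy j).1 h)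
    (show y ∈ cell w' from fun j h => (hy j).2 h)

/-- Syntactically disjoint cells are disjoint. -/
theorem disjoint_of_disj {e e' : ℕ} (h : disj e e') : Disjoint (D e) (D e') := by
  rw [disj] at h
  rw [D, D]
  generalize Denumerable.ofNat (List ℕ) e = w at h ⊢
  generalize Denumerable.ofNat (List ℕ) e' = w' at h ⊢
  obtain ⟨j, hj, h⟩ := h
  have hp : (0 : ℝ) < 4 ^ w.length := by positivity
  have hp' : (0 : ℝ) < 4 ^ w'.length := by positivity
  rw [Set.disjoint_left]
  intro x hx hx'
  rcases h with ⟨h1, h2, h3⟩ | ⟨h2, h1, h3⟩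
  · rw [List.getD_eq_getElem _ _ h1, List.getD_eq_getElem _ _ h2] at h3
    have h3' : ((w[j] : ℝ) + 1) * 4 ^ w'.length + 4 ^ w.length ≤ w'[j] * 4 ^ w.length := by
      exact_mod_cast h3
    have g1 := (hx j h1).2
    have g2 := (hx' j h2).1
    have g3 : 4 ^ w.length * (x j : ℝ) * 4 ^ w'.length < ((w[j] : ℝ) + 1) * 4 ^ w'.length :=
      mul_lt_mul_of_pos_right g1 hp'
    have g4 : ((w'[j] : ℝ) - 1) * 4 ^ w.length < 4 ^ w'.length * (x j : ℝ) * 4 ^ w.length :=
      mul_lt_mul_of_pos_right g2 hp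
    nlinarith
  · rw [List.getD_eq_getElem _ _ h1, List.getD_eq_getElem _ _ h2] at h3
    have h3' : ((w'[j] : ℝ) + 1) * 4 ^ w.length + 4 ^ w'.length ≤ w[j] * 4 ^ w'.length := by
      exact_mod_cast h3
    have g1 := (hx j h1).1
    have g2 := (hx' j h2).2
    have g3 : 4 ^ w'.length * (x j : ℝ) * 4 ^ w.length < ((w'[j] : ℝ) + 1) * 4 ^ w.length :=
      mul_lt_mul_of_pos_right g2 hp
    have g4 : ((w[j] : ℝ) - 1) * 4 ^ w'.length < 4 ^ w.length * (x j : ℝ) * 4 ^ w'.length :=
      mul_lt_mul_of_pos_right g1 hp'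
    nlinarith

/-! ### Digits -/

theorem isOpen_dig (m d i : ℕ) : IsOpen {x : Cube | dig m d (x i)} := by
  have : {x : Cube | dig m d (x i)} = ⋃ q : ℕ, {x : Cube | (4 * q + d : ℝ) < 4 ^ (m + 1) * x i ∧
      4 ^ (m + 1) * (x i : ℝ) < 4 * q + d + 1} := by
    ext x; simp [dig]
  rw [this]
  refine isOpen_iUnion fun q => ?_
  have hc := continuous_coord i
  exact (isOpen_lt continuous_const (continuous_const.mul hc)).inter
    (isOpen_lt (continuous_const.mul hc) continuous_const)

theorem not_dig {m : ℕ} {y : ℝ} (h1 : dig m 1 y) (h2 : dig m 2 y) : False := by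
  obtain ⟨q, hq, hq'⟩ := h1
  obtain ⟨p, hp, hp'⟩ := h2
  push_cast at *
  have a : (4 * q + 1 : ℝ) < 4 * p + 3 := by linarith
  have b : (4 * p + 2 : ℝ) < 4 * q + 2 := by linarith
  have a' : 4 * q + 1 < 4 * p + 3 := by exact_mod_cast a
  have b' : 4 * p + 2 < 4 * q + 2 := by exact_mod_cast b
  omega

/-- A real number with prescribed digits `1` or `2`. -/
theorem exists_digits (l c : ℕ) (d : ℕ → ℕ) (hd : ∀ m, d m = 1 ∨ d m = 2) :
    ∃ r : ℝ, (c : ℝ) / 4 ^ l < r ∧ r < (c + 1) / 4 ^ l ∧ ∀ m, dig (l + m) (d m) r := by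
  have hd2 : ∀ m, (d m : ℝ) ≤ 2 := by
    intro m; rcases hd m with h | h <;> rw [h] <;> norm_num
  have hd1 : ∀ m, 1 ≤ (d m : ℝ) := by
    intro m; rcases hd m with h | h <;> rw [h] <;> norm_num
  have hgeo : Summable (fun m : ℕ => 2 * (1 / 4 : ℝ) ^ (m + 1)) :=
    ((summable_nat_add_iff 1).2 (summable_geometric_of_lt_one (by norm_num)
      (by norm_num))).mul_left 2
  have hsum : ∀ s, Summable (fun m : ℕ => (d (s + m) : ℝ) * (1 / 4) ^ (m + 1)) := by
    intro s
    refine Summable.of_nonneg_of_le (fun m => by positivity) (fun m => ?_) hgeo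
    exact mul_le_mul_of_nonneg_right (hd2 _) (by positivity)
  set T : ℕ → ℝ := fun s => ∑' m : ℕ, (d (s + m) : ℝ) * (1 / 4) ^ (m + 1) with hT
  have hgeoval : ∑' m : ℕ, 2 * (1 / 4 : ℝ) ^ (m + 1) = 2 / 3 := by
    have : (fun m : ℕ => 2 * (1 / 4 : ℝ) ^ (m + 1)) = fun m : ℕ => (1 / 2) * (1 / 4 : ℝ) ^ m := by
      ext m; rw [pow_succ]; ring
    rw [this, tsum_mul_left, tsum_geometric_of_lt_one (by norm_num) (by norm_num)]
    norm_num
  have hTle : ∀ s, T s ≤ 2 / 3 := by
    intro s
    rw [← hgeoval]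
    exact (hsum s).tsum_le_tsum (fun m => mul_le_mul_of_nonneg_right (hd2 _) (by positivity)) hgeo
  have hTpos : ∀ s, 0 < T s := by
    intro s
    refine (hsum s).tsum_pos (fun m => by positivity) 0 ?_
    have := hd1 (s + 0)
    positivity
  have hTrec : ∀ s, 4 * T s = d s + T (s + 1) := by
    intro s
    rw [hT]
    simp only
    rw [(hsum s).tsum_eq_zero_add]
    have : ∑' m : ℕ, (d (s + (m + 1)) : ℝ) * (1 / 4) ^ (m + 1 + 1) =
        (1 / 4) * ∑' m : ℕ, (d (s + 1 + m) : ℝ) * (1 / 4) ^ (m + 1) := by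
      rw [← tsum_mul_left]
      congr 1; ext m
      rw [show s + (m + 1) = s + 1 + m by ring, pow_succ _ (m + 1)]; ring
    rw [this]; simp only [add_zero, zero_add, pow_one]; ring
  have hp : (0 : ℝ) < 4 ^ l := by positivity
  refine ⟨(c + T 0) / 4 ^ l, ?_, ?_, ?_⟩
  · rw [div_lt_div_iff_of_pos_right hp]; linarith [hTpos 0]
  · rw [div_lt_div_iff_of_pos_right hp]; linarith [hTle 0]
  · intro m
    have key : ∀ m, ∃ q : ℕ, (4 : ℝ) ^ m * (c + T 0) = q + T m := by
      intro m
      induction m with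
      | zero => exact ⟨c, by simp⟩
      | succ m ih =>
        obtain ⟨q, hq⟩ := ih
        refine ⟨4 * q + d m, ?_⟩
        rw [pow_succ, mul_comm ((4 : ℝ) ^ m) 4, mul_assoc, hq, mul_add, hTrec]
        push_cast; ring
    obtain ⟨q, hq⟩ := key m
    refine ⟨q, ?_⟩
    have e : (4 : ℝ) ^ (l + m + 1) * ((c + T 0) / 4 ^ l) = 4 * q + d m + T (m + 1) := by
      have : (4 : ℝ) ^ (l + m + 1) = 4 ^ l * (4 * 4 ^ m) := by ring
      rw [this]
      field_simp
      linear_combination 4 * hq + hTrec m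
    rw [e]
    constructor
    · linarith [hTpos (m + 1)]
    · linarith [hTle (m + 1)]

end Pool.Agent.Lib.MP_fe5ad6_lc
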