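import Pool.Agent.Lib.MP_fe5ad6_lc.Defs

open Set Filter Topology

namespace Pool.Agent.Lib.MP_fe5ad6_lc

/-- The interval of the `j`-th triple of `L` lies in `(P / Q - 1, R / Q - 1)`. -/
def isub (L : List (ℕ × ℕ × ℕ)) (j P R Q : ℕ) : Prop :=
  j < L.length ∧ P * ((L.getD j (0, 0, 0)).2.2 + 1) ≤ (L.getD j (0, 0, 0)).1 * Q ∧
    (L.getD j (0, 0, 0)).2.1 * Q ≤ R * ((L.getD j (0, 0, 0)).2.2 + 1)

theorem isub_mem {L : List (ℕ × ℕ × ℕ)} {j P R Q : ℕ} (hQ : 0 < Q) (h : isub L j P R Q)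
    {x : Cube} (hx : x ∈ box L) : (P : ℝ) / Q - 1 < x j ∧ (x j : ℝ) < (R : ℝ) / Q - 1 := by
  obtain ⟨h1, h2, h3⟩ := h
  have hQ' : (0 : ℝ) < Q := by exact_mod_cast hQ
  have hx' := hx j h1
  rw [List.getD_eq_getElem _ _ h1] at h2 h3
  have hc : (0 : ℝ) < (L[j].2.2 : ℝ) + 1 := by positivity
  unfold lo hi at hx'
  have h2' : (P : ℝ) * ((L[j].2.2 : ℝ) + 1) ≤ (L[j].1 : ℝ) * Q := by exact_mod_cast h2
  have h3' : (L[j].2.1 : ℝ) * Q ≤ (R : ℝ) * ((L[j].2.2 : ℝ) + 1) := by exact_mod_cast h3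
  have h4 : (P : ℝ) / Q ≤ (L[j].1 : ℝ) / ((L[j].2.2 : ℝ) + 1) := by
    rw [div_le_div_iff₀ hQ' hc]; exact h2'
  have h5 : (L[j].2.1 : ℝ) / ((L[j].2.2 : ℝ) + 1) ≤ (R : ℝ) / Q := by
    rw [div_le_div_iff₀ hc hQ']; exact h3'
  constructor <;> linarith [hx'.1, hx'.2]

/-- small boxes around a point -/
noncomputable def smallBox (x : Cube) (N : ℕ) : List (ℕ × ℕ × ℕ) :=
  (List.range N).map fun j =>
    (⌈((x j : ℝ) + 1) * N⌉₊ - 1, ⌊((x j : ℝ) + 1) * N⌋₊ + 1, N - 1)

theorem smallBox_bounds (x : Cube) {N : ℕ} (hN : 0 < N) (j : ℕ) :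
    ((⌈((x j : ℝ) + 1) * N⌉₊ - 1 : ℕ) : ℝ) < ((x j : ℝ) + 1) * N ∧
    ((x j : ℝ) + 1) * N - 1 ≤ ((⌈((x j : ℝ) + 1) * N⌉₊ - 1 : ℕ) : ℝ) ∧
    ((x j : ℝ) + 1) * N < ((⌊((x j : ℝ) + 1) * N⌋₊ + 1 : ℕ) : ℝ) ∧
    ((⌊((x j : ℝ) + 1) * N⌋₊ + 1 : ℕ) : ℝ) ≤ ((x j : ℝ) + 1) * N + 1 := by
  have hN' : (0 : ℝ) < N := by exact_mod_cast hN
  have hx0 : 0 ≤ (x j : ℝ) := (x j).2.1
  have hy : 0 < ((x j : ℝ) + 1) * N := by positivity
  have h1 : 1 ≤ ⌈((x j : ℝ) + 1) * N⌉₊ := Nat.one_le_iff_ne_zero.2 (by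
    have := Nat.ceil_pos.2 hy
    omega)
  have h2 := Nat.ceil_lt_add_one hy.le
  have h3 := Nat.le_ceil (((x j : ℝ) + 1) * N)
  have h4 := Nat.floor_le hy.le
  have h5 := Nat.lt_floor_add_one (((x j : ℝ) + 1) * N)
  push_cast [Nat.cast_sub h1]
  refine ⟨by linarith, by linarith, h5, by linarith⟩

theorem mem_smallBox (x : Cube) {N : ℕ} (hN : 0 < N) : x ∈ box (smallBox x N) := by
  intro j hj
  have hN' : (0 : ℝ) < N := by exact_mod_cast hN
  have hjN : j < N := by simpa [smallBox] using hj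
  obtain ⟨h1, h2, h3, h4⟩ := smallBox_bounds x hN j
  have hc : (((N - 1 : ℕ) : ℝ) + 1) = N := by
    have : 1 ≤ N := hN
    push_cast [Nat.cast_sub this]; ring
  simp only [smallBox, List.getElem_map, List.getElem_range, lo, hi]
  rw [hc]
  constructor
  · rw [sub_lt_iff_lt_add, div_lt_iff₀ hN']; exact h1
  · rw [lt_sub_iff_add_lt, lt_div_iff₀ hN']; exact h3

theorem ev_isub (x : Cube) (j P R Q : ℕ) (hQ : 0 < Q) (h1 : (P : ℝ) / Q - 1 < x j)
    (h2 : (x j : ℝ) < (R : ℝ) / Q - 1) : ∀ᶠ N : ℕ in atTop, isub (smallBox x N) j P R Q := by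
  have hQ' : (0 : ℝ) < Q := by exact_mod_cast hQ
  set δ := min ((x j : ℝ) - ((P : ℝ) / Q - 1)) ((R : ℝ) / Q - 1 - x j) with hδ
  have hδ0 : 0 < δ := lt_min (by linarith) (by linarith)
  have h3 : ∀ᶠ N : ℕ in atTop, 1 / δ < N := by
    exact (tendsto_natCast_atTop_atTop.eventually_gt_atTop (1 / δ))
  filter_upwards [h3, eventually_gt_atTop j, eventually_gt_atTop 0] with N hN hj hN0
  have hN' : (0 : ℝ) < N := by exact_mod_cast hN0
  have hlen : (smallBox x N).length = N := by simp [smallBox]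
  have hjl : j < (smallBox x N).length := by omega
  obtain ⟨b1, b2, b3, b4⟩ := smallBox_bounds x hN0 j
  have hδN : 1 < δ * N := by
    rw [div_lt_iff₀ hδ0] at hN; linarith
  have e1 : δ ≤ (x j : ℝ) - ((P : ℝ) / Q - 1) := min_le_left _ _
  have e2 : δ ≤ (R : ℝ) / Q - 1 - x j := min_le_right _ _
  have e3 : 1 < ((x j : ℝ) - ((P : ℝ) / Q - 1)) * N := hδN.trans_le (by gcongr)
  have e4 : 1 < ((R : ℝ) / Q - 1 - x j) * N := hδN.trans_le (by gcongr)
  have hPQ : (P : ℝ) / Q * Q = P := by field_simp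
  have hRQ : (R : ℝ) / Q * Q = R := by field_simp
  refine ⟨hjl, ?_, ?_⟩
  · rw [List.getD_eq_getElem _ _ hjl]
    simp only [smallBox, List.getElem_map, List.getElem_range]
    rw [Nat.sub_add_cancel hN0]
    have : (P : ℝ) * N ≤ ((⌈((x j : ℝ) + 1) * N⌉₊ - 1 : ℕ) : ℝ) * Q := by
      calc (P : ℝ) * N = (P : ℝ) / Q * N * Q := by rw [← hPQ]; field_simp
        _ ≤ (((x j : ℝ) + 1) * N - 1) * Q := by
            refine mul_le_mul_of_nonneg_right ?_ hQ'.le
            nlinarith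
        _ ≤ _ := mul_le_mul_of_nonneg_right b2 hQ'.le
    exact_mod_cast this
  · rw [List.getD_eq_getElem _ _ hjl]
    simp only [smallBox, List.getElem_map, List.getElem_range]
    rw [Nat.sub_add_cancel hN0]
    have : ((⌊((x j : ℝ) + 1) * N⌋₊ + 1 : ℕ) : ℝ) * Q ≤ (R : ℝ) * N := by
      calc ((⌊((x j : ℝ) + 1) * N⌋₊ + 1 : ℕ) : ℝ) * Q ≤ (((x j : ℝ) + 1) * N + 1) * Q :=
            mul_le_mul_of_nonneg_right b4 hQ'.le
        _ ≤ (R : ℝ) / Q * N * Q := by
            refine mul_le_mul_of_nonneg_right ?_ hQ'.le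
            nlinarith
        _ = (R : ℝ) * N := by rw [← hRQ]; field_simp
    exact_mod_cast this

/-! ### the syntactic conditions -/

/-- the box lies in the cell `w` -/
def inCell (L : List (ℕ × ℕ × ℕ)) (w : List ℕ) : Prop :=
  ∀ j < w.length, isub L j (w.getD j 0 + 4 ^ w.length - 1) (w.getD j 0 + 1 + 4 ^ w.length)
    (4 ^ w.length)

/-- digit `m` in coordinate `i` is `d` on the box -/
def inDig (L : List (ℕ × ℕ × ℕ)) (i m d : ℕ) : Prop :=
  ∃ q < 4 ^ m, isub L i (4 * q + d + 4 ^ (m + 1)) (4 * q + d + 1 + 4 ^ (m + 1)) (4 ^ (m + 1))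

/-- the side condition holds on the box -/
def inSide (L : List (ℕ × ℕ × ℕ)) (c j : ℕ) : Prop :=
  (c = 0 ∧ isub L j 0 7 4) ∨ (¬ c = 0 ∧ isub L j 5 12 4)

/-- the box lies in the piece -/
def inPiece (L : List (ℕ × ℕ × ℕ)) (i l k c e : ℕ) : Prop :=
  inCell L (Denumerable.ofNat (List ℕ) e) ∧ inSide L c (kap i l k) ∧
    inDig L i (l + pos k e c) 2 ∧ ∀ e' < e + 1, inDig L i (l + pos k e' (1 - c)) 1 ∨
      (inDig L i (l + pos k e' (1 - c)) 2 ∧ disj e e')

/-- the box lies in the open set -/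
def inCompl (L : List (ℕ × ℕ × ℕ)) (i l k c e : ℕ) : Prop :=
  c < 2 ∧ (isub L (kap i l k) 0 5 4 ∨ isub L (kap i l k) 7 12 4 ∨ inPiece L i l k c e)

theorem cell_pow_cast (w : List ℕ) (j : ℕ) :
    (((w.getD j 0 + 4 ^ w.length - 1 : ℕ) : ℝ) / ((4 ^ w.length : ℕ) : ℝ) - 1 =
      ((w.getD j 0 : ℝ) - 1) / 4 ^ w.length) ∧
    (((w.getD j 0 + 1 + 4 ^ w.length : ℕ) : ℝ) / ((4 ^ w.length : ℕ) : ℝ) - 1 =
      ((w.getD j 0 : ℝ) + 1) / 4 ^ w.length) := by
  have h4 : (0 : ℝ) < 4 ^ w.length := by positivity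
  have h5 : 1 ≤ w.getD j 0 + 4 ^ w.length := le_add_left (Nat.one_le_pow _ _ (by norm_num))
  push_cast [Nat.cast_sub h5]
  constructor <;> field_simp <;> ring

theorem inCell_sub {L : List (ℕ × ℕ × ℕ)} {w : List ℕ} (h : inCell L w) : box L ⊆ cell w := by
  intro x hx j hj
  have h1 := isub_mem (by positivity) (h j hj) hx
  obtain ⟨e1, e2⟩ := cell_pow_cast w j
  have h4 : (0 : ℝ) < 4 ^ w.length := by positivity
  rw [e1, e2, List.getD_eq_getElem _ _ hj, div_lt_iff₀ h4, lt_div_iff₀ h4] at h1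
  constructor <;> linarith [h1.1, h1.2]

theorem ev_inCell {x : Cube} {w : List ℕ} (hx : x ∈ cell w) :
    ∀ᶠ N : ℕ in atTop, inCell (smallBox x N) w := by
  have h : ∀ j ∈ Finset.range w.length, ∀ᶠ N : ℕ in atTop, isub (smallBox x N) j
      (w.getD j 0 + 4 ^ w.length - 1) (w.getD j 0 + 1 + 4 ^ w.length) (4 ^ w.length) := by
    intro j hj
    have hj' := Finset.mem_range.1 hj
    have h4 : (0 : ℝ) < 4 ^ w.length := by positivity
    obtain ⟨e1, e2⟩ := cell_pow_cast w j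
    have h1 := hx j hj'
    refine ev_isub x j _ _ _ (by positivity) ?_ ?_
    · rw [e1, List.getD_eq_getElem _ _ hj', div_lt_iff₀ h4]; linarith [h1.1]
    · rw [e2, List.getD_eq_getElem _ _ hj', lt_div_iff₀ h4]; linarith [h1.2]
  have h2 := (Finset.eventually_all (Finset.range w.length)).2 h
  filter_upwards [h2] with N hN j hj
  exact hN j (Finset.mem_range.2 hj)

theorem inDig_sub {L : List (ℕ × ℕ × ℕ)} {i m d : ℕ} (h : inDig L i m d) {x : Cube}
    (hx : x ∈ box L) : dig m d (x i) := by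
  obtain ⟨q, _, h⟩ := h
  have h1 := isub_mem (by positivity) h hx
  have h4 : (0 : ℝ) < 4 ^ (m + 1) := by positivity
  push_cast at h1
  refine ⟨q, ?_, ?_⟩
  · have h2 := h1.1
    rw [sub_lt_iff_lt_add, div_lt_iff₀ h4] at h2
    linarith
  · have h2 := h1.2
    rw [lt_sub_iff_add_lt, lt_div_iff₀ h4] at h2
    linarith

theorem ev_inDig {x : Cube} {i m d : ℕ} (h : dig m d (x i)) :
    ∀ᶠ N : ℕ in atTop, inDig (smallBox x N) i m d := by
  obtain ⟨q, h1, h2⟩ := h
  have h4 : (0 : ℝ) < 4 ^ (m + 1) := by positivity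
  have hx1 : (x i : ℝ) ≤ 1 := (x i).2.2
  have hq : q < 4 ^ m := by
    have h5 : (4 : ℝ) ^ (m + 1) * x i ≤ 4 ^ (m + 1) := by nlinarith
    have h6 : (4 : ℝ) * q < 4 * 4 ^ m := by
      have hd : (0 : ℝ) ≤ d := by positivity
      rw [pow_succ] at h5 h1
      linarith
    have h7 : (q : ℝ) < (4 ^ m : ℕ) := by push_cast; linarith
    exact_mod_cast h7
  have h5 := ev_isub x i (4 * q + d + 4 ^ (m + 1)) (4 * q + d + 1 + 4 ^ (m + 1)) (4 ^ (m + 1))
    (by positivity) (by
      push_cast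
      rw [sub_lt_iff_lt_add, div_lt_iff₀ h4]
      linarith) (by
      push_cast
      rw [lt_sub_iff_add_lt, lt_div_iff₀ h4]
      linarith)
  filter_upwards [h5] with N hN
  exact ⟨q, hq, hN⟩

theorem inSide_sub {L : List (ℕ × ℕ × ℕ)} {c j : ℕ} (h : inSide L c j) {x : Cube}
    (hx : x ∈ box L) : side c (x j) := by
  unfold side
  rcases h with ⟨hc, h⟩ | ⟨hc, h⟩
  · rw [if_pos hc]
    have h1 := (isub_mem (by norm_num) h hx).2
    norm_num at h1
    linarith
  · rw [if_neg hc]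
    have h1 := (isub_mem (by norm_num) h hx).1
    norm_num at h1
    linarith

theorem ev_inSide {x : Cube} {c j : ℕ} (h : side c (x j)) :
    ∀ᶠ N : ℕ in atTop, inSide (smallBox x N) c j := by
  have hx0 : 0 ≤ (x j : ℝ) := (x j).2.1
  have hx1 : (x j : ℝ) ≤ 1 := (x j).2.2
  unfold side at h
  by_cases hc : c = 0
  · rw [if_pos hc] at h
    have h5 := ev_isub x j 0 7 4 (by norm_num) (by push_cast; linarith) (by push_cast; linarith)
    filter_upwards [h5] with N hN
    exact Or.inl ⟨hc, hN⟩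
  · rw [if_neg hc] at h
    have h5 := ev_isub x j 5 12 4 (by norm_num) (by push_cast; linarith) (by push_cast; linarith)
    filter_upwards [h5] with N hN
    exact Or.inr ⟨hc, hN⟩

theorem inPiece_sub {L : List (ℕ × ℕ × ℕ)} {i l k c e : ℕ} (h : inPiece L i l k c e) :
    box L ⊆ piece i l k c e := by
  intro x hx
  obtain ⟨h1, h2, h3, h4⟩ := h
  refine ⟨inCell_sub h1 hx, inSide_sub h2 hx, inDig_sub h3 hx, ?_⟩
  intro e' he'
  rcases h4 e' (by omega) with h | ⟨h, h'⟩
  · exact Or.inl (inDig_sub h hx)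
  · exact Or.inr ⟨inDig_sub h hx, h'⟩

theorem ev_inPiece {x : Cube} {i l k c e : ℕ} (h : x ∈ piece i l k c e) :
    ∀ᶠ N : ℕ in atTop, inPiece (smallBox x N) i l k c e := by
  obtain ⟨h1, h2, h3, h4⟩ := h
  have h5 : ∀ e' ∈ Finset.range (e + 1), ∀ᶠ N : ℕ in atTop,
      (inDig (smallBox x N) i (l + pos k e' (1 - c)) 1 ∨
      (inDig (smallBox x N) i (l + pos k e' (1 - c)) 2 ∧ disj e e')) := by
    intro e' he'
    rcases h4 e' (by have := Finset.mem_range.1 he'; omega) with h | ⟨h, h'⟩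
    · filter_upwards [ev_inDig h] with N hN
      exact Or.inl hN
    · filter_upwards [ev_inDig h] with N hN
      exact Or.inr ⟨hN, h'⟩
  have h6 := (Finset.eventually_all (Finset.range (e + 1))).2 h5
  filter_upwards [ev_inCell h1, ev_inSide h2, ev_inDig h3, h6] with N a1 a2 a3 a4
  exact ⟨a1, a2, a3, fun e' he' => a4 e' (Finset.mem_range.2 he')⟩

theorem inCompl_sub {L : List (ℕ × ℕ × ℕ)} {i l k c e : ℕ} (h : inCompl L i l k c e) :
    box L ⊆ Compl := by
  intro x hx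
  obtain ⟨hc, h⟩ := h
  simp only [Compl, mem_iUnion]
  refine ⟨i, l, k, ?_⟩
  rcases h with h | h | h
  · left; left
    have h1 := (isub_mem (by norm_num) h hx).2
    norm_num at h1
    simp only [mem_ofPred_eq]
    linarith
  · right; left
    have h1 := (isub_mem (by norm_num) h hx).1
    norm_num at h1
    simp only [mem_ofPred_eq]
    linarith
  · have h1 := inPiece_sub h hx
    rcases (by omega : c = 0 ∨ c = 1) with rfl | rfl
    · left; right
      exact mem_iUnion.2 ⟨e, h1⟩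
    · right; right
      exact mem_iUnion.2 ⟨e, h1⟩

theorem exists_inCompl {x : Cube} (hx : x ∈ Compl) :
    ∃ i l k c e L, x ∈ box L ∧ inCompl L i l k c e := by
  simp only [Compl, mem_iUnion] at hx
  obtain ⟨i, l, k, hx⟩ := hx
  have hx0 : 0 ≤ (x (kap i l k) : ℝ) := (x (kap i l k)).2.1
  have hx1 : (x (kap i l k) : ℝ) ≤ 1 := (x (kap i l k)).2.2
  have key : ∃ c e, ∀ᶠ N : ℕ in atTop, inCompl (smallBox x N) i l k c e := by
    rcases hx with (h | h) | (h | h)
    · simp only [mem_ofPred_eq] at h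
      refine ⟨0, 0, ?_⟩
      filter_upwards [ev_isub x (kap i l k) 0 5 4 (by norm_num) (by push_cast; linarith)
        (by push_cast; linarith)] with N hN
      exact ⟨by norm_num, Or.inl hN⟩
    · obtain ⟨e, he⟩ := mem_iUnion.1 h
      refine ⟨0, e, ?_⟩
      filter_upwards [ev_inPiece he] with N hN
      exact ⟨by norm_num, Or.inr (Or.inr hN)⟩
    · simp only [mem_ofPred_eq] at h
      refine ⟨0, 0, ?_⟩
      filter_upwards [ev_isub x (kap i l k) 7 12 4 (by norm_num) (by push_cast; linarith)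
        (by push_cast; linarith)] with N hN
      exact ⟨by norm_num, Or.inr (Or.inl hN)⟩
    · obtain ⟨e, he⟩ := mem_iUnion.1 h
      refine ⟨1, e, ?_⟩
      filter_upwards [ev_inPiece he] with N hN
      exact ⟨by norm_num, Or.inr (Or.inr hN)⟩
  obtain ⟨c, e, hce⟩ := key
  obtain ⟨N, hN, hN0⟩ := (hce.and (eventually_gt_atTop 0)).exists
  exact ⟨i, l, k, c, e, smallBox x N, mem_smallBox x hN0, hN⟩

/-! ### primitive recursiveness -/

section prim

variable {α : Type*} [Primcodable α]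

theorem pp_forall {R : ℕ → α → Prop} (hR : PrimrecRel R) {f : α → ℕ} (hf : Primrec f) :
    PrimrecPred fun a => ∀ x < f a, R x a :=
  (hR.forall_mem_list.comp (Primrec.list_range.comp hf) Primrec.id).of_eq (by simp)

theorem pp_exists {R : ℕ → α → Prop} (hR : PrimrecRel R) {f : α → ℕ} (hf : Primrec f) :
    PrimrecPred fun a => ∃ x < f a, R x a :=
  (hR.exists_mem_list.comp (Primrec.list_range.comp hf) Primrec.id).of_eq (by simp)

theorem pr_pow4 {f : α → ℕ} (hf : Primrec f) : Primrec fun a => 4 ^ f a :=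
  (Primrec₂.unpaired'.1 Nat.Primrec.pow).comp (Primrec.const 4) hf

theorem pr_add {f g : α → ℕ} (hf : Primrec f) (hg : Primrec g) : Primrec fun a => f a + g a :=
  Primrec.nat_add.comp hf hg

theorem pr_sub {f g : α → ℕ} (hf : Primrec f) (hg : Primrec g) : Primrec fun a => f a - g a :=
  Primrec.nat_sub.comp hf hg

theorem pr_mul {f g : α → ℕ} (hf : Primrec f) (hg : Primrec g) : Primrec fun a => f a * g a :=
  Primrec.nat_mul.comp hf hg

theorem pp_le {f g : α → ℕ} (hf : Primrec f) (hg : Primrec g) : PrimrecPred fun a => f a ≤ g a :=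
  Primrec.nat_le.comp hf hg

theorem pp_lt {f g : α → ℕ} (hf : Primrec f) (hg : Primrec g) : PrimrecPred fun a => f a < g a :=
  Primrec.nat_lt.comp hf hg

theorem pp_isub {L : α → List (ℕ × ℕ × ℕ)} {j P R Q : α → ℕ} (hL : Primrec L) (hj : Primrec j)
    (hP : Primrec P) (hR : Primrec R) (hQ : Primrec Q) :
    PrimrecPred fun a => isub (L a) (j a) (P a) (R a) (Q a) := by
  have ht : Primrec fun a => (L a).getD (j a) (0, 0, 0) :=
    (Primrec.list_getD (0, 0, 0)).comp hL hj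
  have h1 : Primrec fun a => ((L a).getD (j a) (0, 0, 0)).1 := Primrec.fst.comp ht
  have h2 : Primrec fun a => ((L a).getD (j a) (0, 0, 0)).2.1 :=
    Primrec.fst.comp (Primrec.snd.comp ht)
  have h3 : Primrec fun a => ((L a).getD (j a) (0, 0, 0)).2.2 :=
    Primrec.snd.comp (Primrec.snd.comp ht)
  exact (pp_lt hj (Primrec.list_length.comp hL)).and
    ((pp_le (pr_mul hP (pr_add h3 (Primrec.const 1))) (pr_mul h1 hQ)).and
      (pp_le (pr_mul h2 hQ) (pr_mul hR (pr_add h3 (Primrec.const 1)))))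

theorem pp_inCell {L : α → List (ℕ × ℕ × ℕ)} {w : α → List ℕ} (hL : Primrec L) (hw : Primrec w) :
    PrimrecPred fun a => inCell (L a) (w a) := by
  have hlen : Primrec fun a => (w a).length := Primrec.list_length.comp hw
  refine pp_forall (R := fun j a => isub (L a) j ((w a).getD j 0 + 4 ^ (w a).length - 1)
    ((w a).getD j 0 + 1 + 4 ^ (w a).length) (4 ^ (w a).length)) ?_ hlen
  have hL' : Primrec fun p : ℕ × α => L p.2 := hL.comp Primrec.snd
  have hw' : Primrec fun p : ℕ × α => w p.2 := hw.comp Primrec.snd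
  have hp' : Primrec fun p : ℕ × α => 4 ^ (w p.2).length := pr_pow4 (hlen.comp Primrec.snd)
  have hg : Primrec fun p : ℕ × α => (w p.2).getD p.1 0 :=
    (Primrec.list_getD 0).comp hw' Primrec.fst
  exact pp_isub hL' Primrec.fst (pr_sub (pr_add hg hp') (Primrec.const 1))
    (pr_add (pr_add hg (Primrec.const 1)) hp') hp'

theorem pp_inDig {L : α → List (ℕ × ℕ × ℕ)} {i m d : α → ℕ} (hL : Primrec L) (hi : Primrec i)
    (hm : Primrec m) (hd : Primrec d) : PrimrecPred fun a => inDig (L a) (i a) (m a) (d a) := by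
  refine pp_exists (R := fun q a => isub (L a) (i a) (4 * q + d a + 4 ^ (m a + 1))
    (4 * q + d a + 1 + 4 ^ (m a + 1)) (4 ^ (m a + 1))) ?_ (pr_pow4 hm)
  have hp' : Primrec fun p : ℕ × α => 4 ^ (m p.2 + 1) :=
    pr_pow4 (pr_add (hm.comp Primrec.snd) (Primrec.const 1))
  have h4q : Primrec fun p : ℕ × α => 4 * p.1 := pr_mul (Primrec.const 4) Primrec.fst
  exact pp_isub (hL.comp Primrec.snd) (hi.comp Primrec.snd)
    (pr_add (pr_add h4q (hd.comp Primrec.snd)) hp')
    (pr_add (pr_add (pr_add h4q (hd.comp Primrec.snd)) (Primrec.const 1)) hp') hp'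

theorem pp_inSide {L : α → List (ℕ × ℕ × ℕ)} {c j : α → ℕ} (hL : Primrec L) (hc : Primrec c)
    (hj : Primrec j) : PrimrecPred fun a => inSide (L a) (c a) (j a) := by
  have h0 : PrimrecPred fun a => c a = 0 := Primrec.eq.comp hc (Primrec.const 0)
  exact (h0.and (pp_isub hL hj (Primrec.const 0) (Primrec.const 7) (Primrec.const 4))).or
    (h0.not.and (pp_isub hL hj (Primrec.const 5) (Primrec.const 12) (Primrec.const 4)))

theorem pp_left {w w' : α → List ℕ} {j : α → ℕ} (hw : Primrec w) (hw' : Primrec w')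
    (hj : Primrec j) : PrimrecPred fun a => left (w a) (w' a) (j a) := by
  have hl : Primrec fun a => (w a).length := Primrec.list_length.comp hw
  have hl' : Primrec fun a => (w' a).length := Primrec.list_length.comp hw'
  have hg : Primrec fun a => (w a).getD (j a) 0 := (Primrec.list_getD 0).comp hw hj
  have hg' : Primrec fun a => (w' a).getD (j a) 0 := (Primrec.list_getD 0).comp hw' hj
  exact (pp_lt hj hl).and ((pp_lt hj hl').and (pp_le
    (pr_add (pr_mul (pr_add hg (Primrec.const 1)) (pr_pow4 hl')) (pr_pow4 hl))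
    (pr_mul hg' (pr_pow4 hl))))

theorem pp_disj {e e' : α → ℕ} (he : Primrec e) (he' : Primrec e') :
    PrimrecPred fun a => disj (e a) (e' a) := by
  have hw : Primrec fun a => Denumerable.ofNat (List ℕ) (e a) := (Primrec.ofNat _).comp he
  have hw' : Primrec fun a => Denumerable.ofNat (List ℕ) (e' a) := (Primrec.ofNat _).comp he'
  refine pp_exists (R := fun j a => left (Denumerable.ofNat (List ℕ) (e a))
    (Denumerable.ofNat (List ℕ) (e' a)) j ∨ left (Denumerable.ofNat (List ℕ) (e' a))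
    (Denumerable.ofNat (List ℕ) (e a)) j) ?_ (Primrec.list_length.comp hw)
  exact (pp_left (hw.comp Primrec.snd) (hw'.comp Primrec.snd) Primrec.fst).or
    (pp_left (hw'.comp Primrec.snd) (hw.comp Primrec.snd) Primrec.fst)

theorem pr_kap {i l k : α → ℕ} (hi : Primrec i) (hl : Primrec l) (hk : Primrec k) :
    Primrec fun a => kap (i a) (l a) (k a) :=
  pr_add (pr_mul (Primrec.const 2) (Primrec₂.natPair.comp hi (Primrec₂.natPair.comp hl hk)))
    (Primrec.const 1)

theorem pr_pos {k e c : α → ℕ} (hk : Primrec k) (he : Primrec e) (hc : Primrec c) :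
    Primrec fun a => pos (k a) (e a) (c a) :=
  pr_add (pr_mul (Primrec.const 2) (Primrec₂.natPair.comp hk he)) hc

theorem pp_inPiece {L : α → List (ℕ × ℕ × ℕ)} {i l k c e : α → ℕ} (hL : Primrec L)
    (hi : Primrec i) (hl : Primrec l) (hk : Primrec k) (hc : Primrec c) (he : Primrec e) :
    PrimrecPred fun a => inPiece (L a) (i a) (l a) (k a) (c a) (e a) := by
  have h1 : PrimrecPred fun a => inCell (L a) (Denumerable.ofNat (List ℕ) (e a)) :=
    pp_inCell hL ((Primrec.ofNat _).comp he)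
  have h2 := pp_inSide hL hc (pr_kap hi hl hk)
  have h3 := pp_inDig hL hi (pr_add hl (pr_pos hk he hc)) (Primrec.const 2)
  have h4 : PrimrecPred fun a => ∀ e' < e a + 1, inDig (L a) (i a) (l a + pos (k a) e' (1 - c a)) 1 ∨
      (inDig (L a) (i a) (l a + pos (k a) e' (1 - c a)) 2 ∧ disj (e a) e') := by
    refine pp_forall (R := fun e' a => inDig (L a) (i a) (l a + pos (k a) e' (1 - c a)) 1 ∨
      (inDig (L a) (i a) (l a + pos (k a) e' (1 - c a)) 2 ∧ disj (e a) e')) ?_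
      (pr_add he (Primrec.const 1))
    have hpos : Primrec fun p : ℕ × α => l p.2 + pos (k p.2) p.1 (1 - c p.2) :=
      pr_add (hl.comp Primrec.snd) (pr_pos (hk.comp Primrec.snd) Primrec.fst
        (pr_sub (Primrec.const 1) (hc.comp Primrec.snd)))
    exact (pp_inDig (hL.comp Primrec.snd) (hi.comp Primrec.snd) hpos (Primrec.const 1)).or
      ((pp_inDig (hL.comp Primrec.snd) (hi.comp Primrec.snd) hpos (Primrec.const 2)).and
        (pp_disj (he.comp Primrec.snd) Primrec.fst))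
  exact h1.and (h2.and (h3.and h4))

theorem pp_inCompl {L : α → List (ℕ × ℕ × ℕ)} {i l k c e : α → ℕ} (hL : Primrec L)
    (hi : Primrec i) (hl : Primrec l) (hk : Primrec k) (hc : Primrec c) (he : Primrec e) :
    PrimrecPred fun a => inCompl (L a) (i a) (l a) (k a) (c a) (e a) :=
  (pp_lt hc (Primrec.const 2)).and
    ((pp_isub hL (pr_kap hi hl hk) (Primrec.const 0) (Primrec.const 5) (Primrec.const 4)).or
    ((pp_isub hL (pr_kap hi hl hk) (Primrec.const 7) (Primrec.const 12) (Primrec.const 4)).or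
      (pp_inPiece hL hi hl hk hc he)))

/-- projections of primitive recursive predicates are recursively enumerable -/
theorem re_exists {R : α → ℕ → Prop} (hR : PrimrecRel R) : REPred fun a => ∃ n, R a n := by
  classical
  have h : Partrec fun a : α => Nat.rfind fun n => Part.some (decide (R a n)) :=
    Partrec.rfind (hR.decide.to_comp.partrec.of_eq fun p => rfl)
  refine h.dom_re.of_eq fun a => ?_
  refine Iff.trans Nat.rfind_dom ?_
  constructor
  · rintro ⟨n, hn, _⟩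
    exact ⟨n, by simpa using hn⟩
  · rintro ⟨n, hn⟩
    exact ⟨n, by simpa using hn, fun _ => trivial⟩

end prim

/-- The complement of the hereditarily strongly infinite-dimensional set is effectively open. -/
theorem exists_re : ∃ W : Set ℕ, REPred (fun e => e ∈ W) ∧ (⋃ e ∈ W, B e) = Compl := by
  refine ⟨{E | ∃ n : ℕ, inCompl (Denumerable.ofNat (List (ℕ × ℕ × ℕ)) E)
    n.unpair.1 n.unpair.2.unpair.1 n.unpair.2.unpair.2.unpair.1
    n.unpair.2.unpair.2.unpair.2.unpair.1 n.unpair.2.unpair.2.unpair.2.unpair.2}, ?_, ?_⟩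
  · have hn : Primrec fun p : ℕ × ℕ => p.2.unpair := Primrec.unpair.comp Primrec.snd
    have hn1 : Primrec fun p : ℕ × ℕ => p.2.unpair.1 := Primrec.fst.comp hn
    have hn2 : Primrec fun p : ℕ × ℕ => p.2.unpair.2.unpair :=
      Primrec.unpair.comp (Primrec.snd.comp hn)
    have hn3 : Primrec fun p : ℕ × ℕ => p.2.unpair.2.unpair.2.unpair :=
      Primrec.unpair.comp (Primrec.snd.comp hn2)
    have hn4 : Primrec fun p : ℕ × ℕ => p.2.unpair.2.unpair.2.unpair.2.unpair :=
      Primrec.unpair.comp (Primrec.snd.comp hn3)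
    exact re_exists (R := fun E n => inCompl (Denumerable.ofNat (List (ℕ × ℕ × ℕ)) E)
      n.unpair.1 n.unpair.2.unpair.1 n.unpair.2.unpair.2.unpair.1
      n.unpair.2.unpair.2.unpair.2.unpair.1 n.unpair.2.unpair.2.unpair.2.unpair.2)
      (pp_inCompl ((Primrec.ofNat _).comp Primrec.fst) hn1 (Primrec.fst.comp hn2)
        (Primrec.fst.comp hn3) (Primrec.fst.comp hn4) (Primrec.snd.comp hn4))
  · apply Subset.antisymm
    · refine iUnion₂_subset fun E hE => ?_
      obtain ⟨n, hn⟩ := hE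
      exact inCompl_sub hn
    · intro x hx
      obtain ⟨i, l, k, c, e, L, hxL, hL⟩ := exists_inCompl hx
      refine mem_iUnion₂.2 ⟨Encodable.encode L, ⟨Nat.pair i (Nat.pair l (Nat.pair k
        (Nat.pair c e))), ?_⟩, ?_⟩
      · simpa using hL
      · simpa [B] using hxL

end Pool.Agent.Lib.MP_fe5ad6_lc
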