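import Mathlib

open Set

namespace Pool.Agent.Lib.MP_fe5ad6_lc

/-- The Hilbert cube `[0,1]^ω` with the product topology. -/
abbrev Cube : Type := ℕ → unitInterval

/-- The left endpoint coded by `t = (a, b, c)`: the rational number `a / (c + 1) - 1`. -/
noncomputable def lo (t : ℕ × ℕ × ℕ) : ℝ := (t.1 : ℝ) / (t.2.2 + 1) - 1

/-- The right endpoint coded by `t = (a, b, c)`: the rational number `b / (c + 1) - 1`. -/
noncomputable def hi (t : ℕ × ℕ × ℕ) : ℝ := (t.2.1 : ℝ) / (t.2.2 + 1) - 1

/-- The basic open set `∏_{i < n} (p_i, q_i) × ∏_{i ≥ n} [0,1]` coded by a list `l` of length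
`n`: `p_i = lo l[i]` and `q_i = hi l[i]`. -/
def box (l : List (ℕ × ℕ × ℕ)) : Set Cube :=
  {x | ∀ (i : ℕ) (h : i < l.length), lo l[i] < (x i : ℝ) ∧ (x i : ℝ) < hi l[i]}

/-- The effective enumeration of the basic open sets: `B e` is the box coded by the `e`-th list
of triples of natural numbers. -/
def B (e : ℕ) : Set Cube := box (Denumerable.ofNat (List (ℕ × ℕ × ℕ)) e)

/-- `L` is a partition of `X` between `A` and `B`. -/
def IsPartition {X : Type*} [TopologicalSpace X] (L A B : Set X) : Prop :=
  ∃ U V : Set X, IsOpen U ∧ IsOpen V ∧ Disjoint U V ∧ A ⊆ U ∧ B ⊆ V ∧ L = (U ∪ V)ᶜ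

/-- The sequence `(A_i, B_i)` is essential: whenever `L_i` is a partition between `A_i` and `B_i`
for each `i`, the intersection of the `L_i` is nonempty. -/
def Essential {X : Type*} [TopologicalSpace X] (A B : ℕ → Set X) : Prop :=
  ∀ L : ℕ → Set X, (∀ i, IsPartition (L i) (A i) (B i)) → (⋂ i, L i).Nonempty

/-- `X` is strongly infinite-dimensional: it has an essential sequence of pairs of disjoint closed
sets. -/
def SID (X : Type*) [TopologicalSpace X] : Prop :=
  ∃ A B : ℕ → Set X, (∀ i, IsClosed (A i) ∧ IsClosed (B i) ∧ Disjoint (A i) (B i)) ∧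
    Essential A B

/-- `X` is zero-dimensional: the clopen sets form a base (the empty space is included). -/
def ZeroDim (X : Type*) [TopologicalSpace X] : Prop :=
  TopologicalSpace.IsTopologicalBasis {s : Set X | IsClopen s}

/-- `X` is hereditarily strongly infinite-dimensional: `X` is strongly infinite-dimensional and
each subspace of `X` is zero-dimensional or strongly infinite-dimensional. -/
def HSID (X : Type*) [TopologicalSpace X] : Prop :=
  SID X ∧ ∀ M : Set X, ZeroDim M ∨ SID M

/-! ### The construction -/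

/-- The open cell coded by the list `w` of length `n`: coordinate `j < n` is within `4^{-n}` of
`w_j / 4^n`. -/
def cell (w : List ℕ) : Set Cube :=
  {x | ∀ (j : ℕ) (h : j < w.length), (w[j] : ℝ) - 1 < 4 ^ w.length * (x j : ℝ) ∧
    4 ^ w.length * (x j : ℝ) < (w[j] : ℝ) + 1}

/-- The `e`-th cell. -/
def D (e : ℕ) : Set Cube := cell (Denumerable.ofNat (List ℕ) e)

/-- The intervals in coordinate `j` of the cells `w`, `w'` do not meet, with `w` on the left. -/
def left (w w' : List ℕ) (j : ℕ) : Prop :=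
  j < w.length ∧ j < w'.length ∧
    (w.getD j 0 + 1) * 4 ^ w'.length + 4 ^ w.length ≤ w'.getD j 0 * 4 ^ w.length

/-- A syntactic condition for the disjointness of the cells `w`, `w'`. -/
def disjW (w w' : List ℕ) : Prop :=
  ∃ j < w.length, left w w' j ∨ left w' w j

/-- A syntactic condition for the disjointness of `D e` and `D e'`. -/
def disj (e e' : ℕ) : Prop :=
  disjW (Denumerable.ofNat (List ℕ) e) (Denumerable.ofNat (List ℕ) e')

/-- The `m`-th digit of `y` in base `4` is `d`, and `y` is not an endpoint. -/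
def dig (m d : ℕ) (y : ℝ) : Prop :=
  ∃ q : ℕ, (4 * q + d : ℝ) < 4 ^ (m + 1) * y ∧ 4 ^ (m + 1) * y < 4 * q + d + 1

/-- The position of the bit that says whether `D e` is in the `c`-th open set of the `k`-th
partition. -/
def pos (k e c : ℕ) : ℕ := 2 * Nat.pair k e + c

/-- The coordinate used for the `k`-th partition coded in coordinate `i` from level `l` on. -/
def kap (i l k : ℕ) : ℕ := 2 * Nat.pair i (Nat.pair l k) + 1

/-- The side condition. -/
def side (c : ℕ) (y : ℝ) : Prop := if c = 0 then y < 3 / 4 else 1 / 4 < y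

/-- The `e`-th piece of the `c`-th open set. -/
def piece (i l k c e : ℕ) : Set Cube :=
  {x | x ∈ D e ∧ side c (x (kap i l k)) ∧ dig (l + pos k e c) 2 (x i) ∧
    ∀ e' ≤ e, dig (l + pos k e' (1 - c)) 1 (x i) ∨
      (dig (l + pos k e' (1 - c)) 2 (x i) ∧ disj e e')}

/-- The open set around the face `x_κ = 0`, `κ = kap i l k`. -/
def Uo (i l k : ℕ) : Set Cube :=
  {x | (x (kap i l k) : ℝ) < 1 / 4} ∪ ⋃ e, piece i l k 0 e

/-- The open set around the face `x_κ = 1`, `κ = kap i l k`. -/
def Vo (i l k : ℕ) : Set Cube :=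
  {x | 3 / 4 < (x (kap i l k) : ℝ)} ∪ ⋃ e, piece i l k 1 e

/-- The complement of the hereditarily strongly infinite-dimensional set. -/
def Compl : Set Cube := ⋃ (i : ℕ) (l : ℕ) (k : ℕ), (Uo i l k ∪ Vo i l k)

end Pool.Agent.Lib.MP_fe5ad6_lc
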