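import Pool.Agent.Lib.MP_fe5ad6_lc.Cells
import Pool.Agent.Lib.MP_fe5ad6_lc.Miranda

open Set Topology

namespace Pool.Agent.Lib.MP_fe5ad6_lc

/-! ### The open sets `Uo`, `Vo` -/

theorem isOpen_side (c i : ℕ) : IsOpen {x : Cube | side c (x i)} := by
  unfold side
  by_cases h : c = 0
  · simp only [h, if_true]; exact isOpen_lt (continuous_coord i) continuous_const
  · simp only [h, if_false]; exact isOpen_lt continuous_const (continuous_coord i)

theorem isOpen_piece (i l k c e : ℕ) : IsOpen (piece i l k c e) := by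
  refine (isOpen_D e).inter ((isOpen_side c _).inter ((isOpen_dig _ _ _).inter ?_))
  have : {x : Cube | ∀ e' ≤ e, dig (l + pos k e' (1 - c)) 1 (x i) ∨
      (dig (l + pos k e' (1 - c)) 2 (x i) ∧ disj e e')} =
      ⋂ e' : Fin (e + 1), {x : Cube | dig (l + pos k e' (1 - c)) 1 (x i) ∨
      (dig (l + pos k e' (1 - c)) 2 (x i) ∧ disj e e')} := by
    ext x
    simp only [mem_ofPred_eq, mem_iInter]
    constructor
    · intro h e'; exact h e' (Nat.lt_succ_iff.1 e'.2)
    · intro h e' he'; exact h ⟨e', Nat.lt_succ_iff.2 he'⟩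
  change IsOpen {x : Cube | ∀ e' ≤ e, dig (l + pos k e' (1 - c)) 1 (x i) ∨
      (dig (l + pos k e' (1 - c)) 2 (x i) ∧ disj e e')}
  rw [this]
  refine isOpen_iInter_of_finite fun e' => ?_
  exact (isOpen_dig _ _ _).union ((isOpen_dig _ _ _).inter isOpen_const)

theorem isOpen_Uo (i l k : ℕ) : IsOpen (Uo i l k) :=
  (isOpen_lt (continuous_coord _) continuous_const).union
    (isOpen_iUnion fun e => isOpen_piece i l k 0 e)

theorem isOpen_Vo (i l k : ℕ) : IsOpen (Vo i l k) :=
  (isOpen_lt continuous_const (continuous_coord _)).union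
    (isOpen_iUnion fun e => isOpen_piece i l k 1 e)

theorem disjoint_Uo_Vo (i l k : ℕ) : Disjoint (Uo i l k) (Vo i l k) := by
  rw [Set.disjoint_left]
  rintro x (hx | hx) (hx' | hx')
  · simp only [mem_ofPred_eq] at hx hx'; linarith
  · simp only [mem_iUnion] at hx'
    obtain ⟨e, -, hs, -, -⟩ := hx'
    simp only [side, one_ne_zero, if_false] at hs
    simp only [mem_ofPred_eq] at hx; linarith
  · simp only [mem_iUnion] at hx
    obtain ⟨e, -, hs, -, -⟩ := hx
    simp only [side, if_true] at hs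
    simp only [mem_ofPred_eq] at hx'; linarith
  · simp only [mem_iUnion] at hx hx'
    obtain ⟨e, h1, -, h2, h3⟩ := hx
    obtain ⟨e', h1', -, h2', h3'⟩ := hx'
    rcases le_total e' e with h | h
    · rcases h3 e' h with h4 | ⟨-, h4⟩
      · exact not_dig h4 h2'
      · exact Set.disjoint_left.1 (disjoint_of_disj h4) h1 h1'
    · rcases h3' e h with h4 | ⟨-, h4⟩
      · exact not_dig h4 h2
      · exact Set.disjoint_left.1 (disjoint_of_disj h4) h1' h1

theorem face0_sub (i l k : ℕ) {x : Cube} (hx : (x (kap i l k) : ℝ) = 0) : x ∈ Uo i l k :=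
  Or.inl (by simp only [mem_ofPred_eq, hx]; norm_num)

theorem face1_sub (i l k : ℕ) {x : Cube} (hx : (x (kap i l k) : ℝ) = 1) : x ∈ Vo i l k :=
  Or.inl (by simp only [mem_ofPred_eq, hx]; norm_num)

/-! ### The set -/

/-- The hereditarily strongly infinite-dimensional compactum. -/
abbrev P : Set Cube := Complᶜ

theorem isOpen_Compl : IsOpen Compl :=
  isOpen_iUnion fun i => isOpen_iUnion fun l => isOpen_iUnion fun k =>
    (isOpen_Uo i l k).union (isOpen_Vo i l k)

theorem notMem_of_mem_P {x : Cube} (hx : x ∈ P) (i l k : ℕ) : x ∉ Uo i l k ∧ x ∉ Vo i l k := by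
  constructor <;> intro h <;> apply hx <;> simp only [Compl, mem_iUnion] <;>
    exact ⟨i, l, k, by simp [h]⟩

theorem sid_P : SID P := by
  refine ⟨fun n => {x | ((x : Cube) (2 * n) : ℝ) = 0}, fun n => {x | ((x : Cube) (2 * n) : ℝ) = 1},
    fun n => ⟨?_, ?_, ?_⟩, ?_⟩
  · exact isClosed_eq ((continuous_coord _).comp continuous_subtype_val) continuous_const
  · exact isClosed_eq ((continuous_coord _).comp continuous_subtype_val) continuous_const
  · rw [Set.disjoint_left]; intro x hx hx'
    simp only [mem_ofPred_eq] at hx hx'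
    rw [hx] at hx'; norm_num at hx'
  · intro L hL
    choose U V hU hV hd hA hB hLe using hL
    have hcl : IsClosed (Set.range (Subtype.val : P → Cube)) := by
      rw [Subtype.range_coe]; exact isOpen_Compl.isClosed_compl
    have hext : ∀ n, ∃ U' V' : Set Cube, IsOpen U' ∧ IsOpen V' ∧ Disjoint U' V' ∧
        U n ⊆ Subtype.val ⁻¹' U' ∧ V n ⊆ Subtype.val ⁻¹' V' ∧
        {x : Cube | (x (2 * n) : ℝ) = 0} ⊆ U' ∧ {x : Cube | (x (2 * n) : ℝ) = 1} ⊆ V' := by
      intro n
      refine exists_disjoint_open_ext IsInducing.subtypeVal (hU n) (hV n) (hd n) _ _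
        (isClosed_eq (continuous_coord _) continuous_const)
        (isClosed_eq (continuous_coord _) continuous_const) ?_ (hA n) (hB n) hcl
      rw [Set.disjoint_left]; intro x hx hx'
      simp only [mem_ofPred_eq] at hx hx'
      rw [hx] at hx'; norm_num at hx'
    choose U' V' hU' hV' hd' hUU hVV hA' hB' using hext
    have hF : ∀ n : ℕ, ∃ F : Cube → ℝ, Continuous F ∧
        (∀ x : Cube, (x n : ℝ) = 0 → 0 ≤ F x) ∧ (∀ x : Cube, (x n : ℝ) = 1 → F x ≤ 0) ∧
        (∀ m, n = 2 * m → ∀ x, F x = 0 → x ∉ U' m ∧ x ∉ V' m) ∧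
        (∀ i l k, n = kap i l k → ∀ x, F x = 0 → x ∉ Uo i l k ∧ x ∉ Vo i l k) := by
      intro n
      rcases Nat.even_or_odd' n with ⟨m, rfl | rfl⟩
      · obtain ⟨F, hF, h1, h2⟩ := exists_sign_fun (hU' m) (hV' m) (hd' m)
          ⟨fun _ => 0, hA' m (by simp)⟩ ⟨fun _ => 1, hB' m (by simp)⟩
        refine ⟨F, hF, fun x hx => (h1 x (hA' m hx)).le, fun x hx => (h2 x (hB' m hx)).le, ?_, ?_⟩
        · intro m' hm' x hx
          obtain rfl : m = m' := by omega
          exact ⟨fun h => by have := h1 x h; linarith, fun h => by have := h2 x h; linarith⟩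
        · intro i l k h; unfold kap at h; omega
      · obtain ⟨i, l, k, rfl⟩ : ∃ i l k, m = Nat.pair i (Nat.pair l k) :=
          ⟨m.unpair.1, m.unpair.2.unpair.1, m.unpair.2.unpair.2, by simp⟩
        obtain ⟨F, hF, h1, h2⟩ := exists_sign_fun (isOpen_Uo i l k) (isOpen_Vo i l k)
          (disjoint_Uo_Vo i l k) ⟨fun _ => 0, face0_sub i l k (by simp)⟩
          ⟨fun _ => 1, face1_sub i l k (by simp)⟩
        refine ⟨F, hF, fun x hx => (h1 x (face0_sub i l k hx)).le,
          fun x hx => (h2 x (face1_sub i l k hx)).le, ?_, ?_⟩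
        · intro m' hm'; omega
        · intro i' l' k' h x hx
          unfold kap at h
          have h3 : Nat.pair i (Nat.pair l k) = Nat.pair i' (Nat.pair l' k') := by omega
          rw [Nat.pair_eq_pair, Nat.pair_eq_pair] at h3
          obtain ⟨rfl, rfl, rfl⟩ := h3
          exact ⟨fun h => by have := h1 x h; linarith, fun h => by have := h2 x h; linarith⟩
    choose F hFc hF0 hF1 hFe hFo using hF
    obtain ⟨x, hx⟩ := Miranda.cube_miranda F hFc hF0 hF1
    have hxP : x ∈ P := by
      intro h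
      simp only [Compl, mem_iUnion] at h
      obtain ⟨i, l, k, h⟩ := h
      have := hFo _ i l k rfl x (hx _)
      rcases h with h | h
      · exact this.1 h
      · exact this.2 h
    refine ⟨⟨x, hxP⟩, ?_⟩
    rw [mem_iInter]
    intro n
    rw [hLe n]
    have := hFe _ n rfl x (hx _)
    rintro (h | h)
    · exact this.1 (hUU n h)
    · exact this.2 (hVV n h)

/-! ### Subspaces -/

theorem exists_interval {M : Set P} (hM : ¬ ZeroDim M) :
    ∃ (i : ℕ) (a b : ℝ), a < b ∧ Set.Ioo a b ⊆ Set.range (fun x : M => (((x : P) : Cube) i : ℝ)) := by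
  by_contra hcon
  push Not at hcon
  apply hM
  have hcont : ∀ i, Continuous (fun x : M => (((x : P) : Cube) i : ℝ)) := fun i =>
    (continuous_coord i).comp (continuous_subtype_val.comp continuous_subtype_val)
  refine TopologicalSpace.isTopologicalBasis_of_isOpen_of_nhds (fun u hu => hu.isOpen) ?_
  intro x u hx hu
  have hind : IsInducing (fun x : M => ((x : P) : Cube)) :=
    IsInducing.subtypeVal.comp IsInducing.subtypeVal
  obtain ⟨O, hO, rfl⟩ := hind.isOpen_iff.1 hu
  obtain ⟨I, v, hv, hsub⟩ := isOpen_pi_iff.1 hO _ hx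
  have h1 : ∀ i ∈ I, ∃ p q : ℝ, p < (((x : P) : Cube) i : ℝ) ∧ (((x : P) : Cube) i : ℝ) < q ∧
      (∀ y : M, (((y : P) : Cube) i : ℝ) ≠ p) ∧ (∀ y : M, (((y : P) : Cube) i : ℝ) ≠ q) ∧
      ∀ y : M, p < (((y : P) : Cube) i : ℝ) → (((y : P) : Cube) i : ℝ) < q →
        ((y : P) : Cube) i ∈ v i := by
    intro i hi
    obtain ⟨ε, hε, hb⟩ := Metric.isOpen_iff.1 (hv i hi).1 _ (hv i hi).2
    set s := (((x : P) : Cube) i : ℝ) with hs
    obtain ⟨p, hp, hp'⟩ := Set.not_subset.1 (hcon i (s - ε) s (by linarith))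
    obtain ⟨q, hq, hq'⟩ := Set.not_subset.1 (hcon i s (s + ε) (by linarith))
    refine ⟨p, q, hp.2, hq.1, fun y hy => hp' ⟨y, hy⟩, fun y hy => hq' ⟨y, hy⟩, ?_⟩
    intro y h2 h3
    apply hb
    rw [Metric.mem_ball, Subtype.dist_eq, Real.dist_eq, abs_lt]
    constructor
    · have := hp.1; linarith
    · have := hq.2; linarith
  choose! p q hp hq hp' hq' hpq using h1
  refine ⟨{y : M | ∀ i ∈ I, p i < (((y : P) : Cube) i : ℝ) ∧ (((y : P) : Cube) i : ℝ) < q i},
    ⟨?_, ?_⟩, ?_, ?_⟩
  · have : {y : M | ∀ i ∈ I, p i < (((y : P) : Cube) i : ℝ) ∧ (((y : P) : Cube) i : ℝ) < q i} =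
        ⋂ i ∈ I, {y : M | p i ≤ (((y : P) : Cube) i : ℝ) ∧ (((y : P) : Cube) i : ℝ) ≤ q i} := by
      ext y
      simp only [mem_ofPred_eq, mem_iInter]
      constructor
      · intro h i hi; exact ⟨(h i hi).1.le, (h i hi).2.le⟩
      · intro h i hi
        exact ⟨lt_of_le_of_ne (h i hi).1 (Ne.symm (hp' i hi y)),
          lt_of_le_of_ne (h i hi).2 (hq' i hi y)⟩
    rw [this]
    exact isClosed_biInter fun i _ => (isClosed_le continuous_const (hcont i)).inter
      (isClosed_le (hcont i) continuous_const)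
  · have : {y : M | ∀ i ∈ I, p i < (((y : P) : Cube) i : ℝ) ∧ (((y : P) : Cube) i : ℝ) < q i} =
        ⋂ i ∈ I, {y : M | p i < (((y : P) : Cube) i : ℝ) ∧ (((y : P) : Cube) i : ℝ) < q i} := by
      ext y; simp only [mem_ofPred_eq, mem_iInter]
    rw [this]
    exact isOpen_biInter_finset fun i _ => (isOpen_lt continuous_const (hcont i)).inter
      (isOpen_lt (hcont i) continuous_const)
  · intro i hi; exact ⟨hp i hi, hq i hi⟩
  · intro y hy
    exact hsub fun i hi => hpq i hi y (hy i hi).1 (hy i hi).2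

theorem exists_adic {i : ℕ} {a b : ℝ} (hab : a < b) {M : Set P}
    (h : Set.Ioo a b ⊆ Set.range (fun x : M => (((x : P) : Cube) i : ℝ))) :
    ∃ l c : ℕ, ∀ r : ℝ, (c : ℝ) / 4 ^ l < r → r < (c + 1) / 4 ^ l →
      ∃ x : M, (((x : P) : Cube) i : ℝ) = r := by
  have ha : 0 ≤ a := by
    by_contra hneg
    push Not at hneg
    obtain ⟨x, hx⟩ := h (show min ((a + b) / 2) (a / 2) ∈ Set.Ioo a b by
      constructor
      · exact lt_min (by linarith) (by linarith)
      · exact lt_of_le_of_lt (min_le_left _ _) (by linarith))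
    have h1 : (0 : ℝ) ≤ (((x : P) : Cube) i : ℝ) := (((x : P) : Cube) i).2.1
    simp only at hx
    rw [hx] at h1
    have := min_le_right ((a + b) / 2) (a / 2)
    linarith
  obtain ⟨l, hl⟩ := exists_pow_lt_of_lt_one (show (0 : ℝ) < (b - a) / 2 by linarith)
    (show (1 / 4 : ℝ) < 1 by norm_num)
  have hp : (0 : ℝ) < 4 ^ l := by positivity
  have hl' : 2 < (b - a) * 4 ^ l := by
    rw [div_pow, one_pow, div_lt_iff₀ hp] at hl
    linarith
  refine ⟨l, ⌈a * 4 ^ l⌉₊, fun r hr hr' => ?_⟩
  have hc1 : a * 4 ^ l ≤ ⌈a * 4 ^ l⌉₊ := Nat.le_ceil _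
  have hc2 : (⌈a * 4 ^ l⌉₊ : ℝ) < a * 4 ^ l + 1 := Nat.ceil_lt_add_one (by positivity)
  rw [div_lt_iff₀ hp] at hr
  rw [lt_div_iff₀ hp] at hr'
  obtain ⟨x, hx⟩ := h (show r ∈ Set.Ioo a b by
    constructor
    · by_contra hcon; push Not at hcon
      have := mul_le_mul_of_nonneg_right hcon hp.le
      linarith
    · by_contra hcon; push Not at hcon
      have := mul_le_mul_of_nonneg_right hcon hp.le
      linarith)
  exact ⟨x, hx⟩

theorem sid_of_not_zeroDim {M : Set P} (hM : ¬ ZeroDim M) : SID M := by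
  obtain ⟨i, a, b, hab, hsub⟩ := exists_interval hM
  obtain ⟨l, c, hc⟩ := exists_adic hab hsub
  have hcont : ∀ i, Continuous (fun x : M => (((x : P) : Cube) i : ℝ)) := fun i =>
    (continuous_coord i).comp (continuous_subtype_val.comp continuous_subtype_val)
  refine ⟨fun k => {x | (((x : P) : Cube) (kap i l k) : ℝ) ≤ 1 / 4},
    fun k => {x | 3 / 4 ≤ (((x : P) : Cube) (kap i l k) : ℝ)}, fun k => ⟨?_, ?_, ?_⟩, ?_⟩
  · exact isClosed_le (hcont _) continuous_const
  · exact isClosed_le continuous_const (hcont _)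
  · rw [Set.disjoint_left]; intro x hx hx'
    simp only [mem_ofPred_eq] at hx hx'
    linarith
  · intro L hL
    choose U V hU hV hd hA hB hLe using hL
    have hext : ∀ n, ∃ U' V' : Set Cube, IsOpen U' ∧ IsOpen V' ∧ Disjoint U' V' ∧
        U n ⊆ (fun x : M => ((x : P) : Cube)) ⁻¹' U' ∧
        V n ⊆ (fun x : M => ((x : P) : Cube)) ⁻¹' V' := fun n =>
      exists_disjoint_open_ext' (IsInducing.subtypeVal.comp IsInducing.subtypeVal)
        (hU n) (hV n) (hd n)
    choose U' V' hU' hV' hd' hUU hVV using hext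
    classical
    let G : ℕ → ℕ → Set Cube := fun k c => if c = 0 then U' k else V' k
    let d : ℕ → ℕ := fun m =>
      if (D (m / 2).unpair.2).Nonempty ∧ D (m / 2).unpair.2 ⊆ G (m / 2).unpair.1 (m % 2)
      then 2 else 1
    have hd1 : ∀ m, d m = 1 ∨ d m = 2 := by
      intro m; simp only [d]; split_ifs <;> simp
    have hdpos : ∀ k e c, c < 2 → d (pos k e c) =
        if (D e).Nonempty ∧ D e ⊆ G k c then 2 else 1 := by
      intro k e c hc
      have e1 : pos k e c / 2 = Nat.pair k e := by unfold pos; omega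
      have e2 : pos k e c % 2 = c := by unfold pos; omega
      simp only [d, e1, e2, Nat.unpair_pair]
    obtain ⟨r, hr1, hr2, hdig⟩ := exists_digits l c d hd1
    obtain ⟨x, hx⟩ := hc r hr1 hr2
    have hdig' : ∀ m, dig (l + m) (d m) (((x : P) : Cube) i) := by
      intro m; rw [hx]; exact hdig m
    refine ⟨x, ?_⟩
    rw [mem_iInter]
    intro k
    rw [hLe k]
    have hP := notMem_of_mem_P (x : P).2 i l k
    -- general step
    have step : ∀ c, c < 2 → ((x : P) : Cube) ∈ G k c →
        side c (((x : P) : Cube) (kap i l k)) →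
        ∃ e, ((x : P) : Cube) ∈ piece i l k c e := by
      intro c hc hxG hs
      have hGo : IsOpen (G k c) := by
        simp only [G]; split_ifs
        · exact hU' k
        · exact hV' k
      obtain ⟨e, he1, he2⟩ := exists_D hGo hxG
      refine ⟨e, he1, hs, ?_, ?_⟩
      · have := hdig' (pos k e c)
        rw [hdpos k e c hc, if_pos ⟨⟨_, he1⟩, he2⟩] at this
        exact this
      · intro e' _
        have h3 := hdig' (pos k e' (1 - c))
        rw [hdpos k e' (1 - c) (by omega)] at h3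
        split_ifs at h3 with h4
        · right
          refine ⟨h3, disj_of_disjoint ⟨_, he1⟩ h4.1 ?_⟩
          have hGd : Disjoint (G k c) (G k (1 - c)) := by
            rcases (show c = 0 ∨ c = 1 by omega) with rfl | rfl
            · simpa [G] using hd' k
            · simpa [G] using (hd' k).symm
          exact Set.disjoint_of_subset he2 h4.2 hGd
        · left; exact h3
    rintro (h | h)
    · obtain ⟨e, he⟩ := step 0 (by norm_num) (by simpa [G] using hUU k h) (by
        simp only [side, if_true]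
        by_contra hcon
        push Not at hcon
        exact Set.disjoint_left.1 (hd k) h (hB k hcon))
      exact hP.1 (Or.inr (mem_iUnion.2 ⟨e, he⟩))
    · obtain ⟨e, he⟩ := step 1 (by norm_num) (by simpa [G] using hVV k h) (by
        simp only [side, one_ne_zero, if_false]
        by_contra hcon
        push Not at hcon
        exact Set.disjoint_left.1 (hd k) (hA k hcon) h)
      exact hP.2 (Or.inr (mem_iUnion.2 ⟨e, he⟩))

theorem hsid_P : HSID P := by
  refine ⟨sid_P, fun M => ?_⟩
  by_cases hM : ZeroDim M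
  · exact Or.inl hM
  · exact Or.inr (sid_of_not_zeroDim hM)

end Pool.Agent.Lib.MP_fe5ad6_lc
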